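import Pool.Agent.Work.MP_8a95ee_gt.Npc.All2
import Pool.Agent.Work.MP_8a95ee_gt.Eu.DG2

/-!
# The inequality with a constant depending only on the dimension: statements of the items

Theorem U (helper42, note of 4 Dec 09:00Z): in `NPCCubulations` the constant depends only on the
dimension for the vertices whose link is a simplicial fan, and no bound on the degrees is needed.

* `S_DIM`, `S_WAD`, `S_DBD`: the number of vertices with tuple outside of `KF` is bounded in terms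
  of the dimension and the length of the tuple.
* `S_NUB`, `S_PSB`, `S_ALT`, `S_THB`: the chain maps `Ψ` and `Θ` are bounded in terms of the
  dimension.
* `S_GEN`, `S_CLO`, `S_DGJ`: the degree functional of a fan on the deleted join.
* `S_FLO`: the local functions; `S_DMain`: the theorem.
-/

set_option autoImplicit false

namespace MP8a95ee.Npc

open Classical

/-- `L` is (combinatorially) a simplicial fan in `ℝ ^ n`: the open cones spanned by the vectors of
the faces are pairwise disjoint.  (So the vectors of a face are linearly independent: split a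
relation in its positive and its negative part.) -/
def IsFan (L : Finset (Finset ℕ)) {n : ℕ} (P : ℕ → Fin n → ℝ) : Prop :=
  ∀ s ∈ L, ∀ t ∈ L, ∀ a b : ℕ → ℝ, (∀ v ∈ s, 0 < a v) → (∀ v ∈ t, 0 < b v) →
    ∑ v ∈ s, a v • P v = ∑ v ∈ t, b v • P v → s = t

/-! ### The number of bad vertices -/

/-- DIM: the faces of a homology sphere of dimension `n - 1` have at most `n` vertices.

Proof.  `FlagC` makes `L` closed under subsets.  Let `s ∈ L` have maximal cardinality among the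
faces containing a given face with more than `n` vertices (`L` is finite), so `s.card > n` and no
`insert a s` with `a ∉ s` is in `L`.  Use `IsHSphere` at `s` with `k = 0` (`s.card + 0 ≠ n`) and
`c := fun t => if t = ∅ then 1 else 0`: it is a `LkChain L s 0` with `bdS L c = 0`?  (`bdS L c t`
is a sum of values of `c` on sets `insert a t`, which are nonempty.)  So there is
`c'` with `LkChain L s 1 c'` and `bdS L c' = c`; but `LkChain L s 1 c'` forces `c' = 0` by
maximality of `s` (its support consists of one-element sets `{a}` disjoint from `s` with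
`{a} ∪ s ∈ L`), so `c = 0`, contradiction. -/
def S_DIM : Prop := ∀ (L : Finset (Finset ℕ)) (_ : FlagC L) (n : ℕ) (_ : RA.IsHSphere L n),
  ∀ s ∈ L, s.card ≤ n

/-- WAD: pairwise crossing walls, bound by the dimension (compare `S_WA4` and its proof `prfWA4`,
MASTER.md WA4: the proof finds a vertex `x` such that all `w i` are walls `D.wall x a` with `a`
adjacent to `x`; as they cross pairwise the `d + 1` neighbours `a` form a face of `link X x`,
`S_WA3` (2), so `d + 1 ≤ d`).  For `d = 0` all links are `{∅}`, so `X` has no edge, which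
contradicts connectedness. -/
def S_WAD : Prop := ∀ (X : SimpleGraph ℕ) (_ : IsMedianGraph X) (_ : LocFin X) (D : WS X) (d : ℕ),
  (∀ x, ∀ s ∈ link X x, s.card ≤ d) → ∀ w : Fin (d + 1) → D.H,
  ¬ ∀ i j, i ≠ j → D.Cross (w i) (w j)

/-- DBD: the number of bad vertices is bounded in terms of the dimension. (helper42) -/
def S_DBD : Prop := ∀ d k : ℕ, ∃ B : ℕ, ∀ (X : SimpleGraph ℕ) (_ : IsMedianGraph X)
  (_ : LocFin X) (_ : ∀ x, ∀ s ∈ link X x, s.card ≤ d) (v : Fin (k + 1) → ℕ) (Z : Finset ℕ),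
  (∀ z ∈ Z, ¬ KF (link X z) fun l => In X z (v l)) → Z.card ≤ B

/-! ### The chain maps are bounded -/

/-- NUB: bounded measures.

Proof: the proof of `prfNU4` (Bd/B10.lean) with bounds.  `|wN L C A| ≤ 2 ^ |C|` and
`|uN L E A| ≤ 2 ^ |E| ≤ 2 ^ |C|` (sums of at most `2 ^ |C|` terms of absolute value `≤ 1`);
`uN L E ∅` is an integer, so `|uN L E ∅| ≥ 1` if it is not zero, hence
`|wN L C ∅ / uN L E ∅| ≤ 2 ^ |C|`.  In the first case `ν = wN` on faces; in the second case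
`|ν A| ≤ 2 ^ |C| + 2 ^ |C| * (1 + 2 ^ |C|) ≤ 4 ^ (|C| + 1)`. -/
def S_NUB : Prop := ∀ (L : Finset (Finset ℕ)) (_ : FlagC L) (C : Finset ℕ) (_ : Cls L C)
  (_ : 1 < C.card), ∃ ν, IsNu L C ν ∧ ∀ A, |ν A| ≤ 4 ^ (C.card + 1)

/-- PSB: the chain map `Ψ` is bounded.

Proof: `PS3.Psi L` (Npc/PS3.lean) with the proof of `prfPS3`; the last part by induction on `k`:
`Psi (k + 1) T = Tup.cons _ (∑ i, ± Psi k _)`, `Tup.cons` does not increase the l1-norm. -/
def S_PSB : Prop := ∀ (L : Finset (Finset ℕ)) (_ : FlagC L),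
  ∃ Ψ : ∀ k, (Fin k → Finset ℕ) → RA.Ch (Finset ℕ) k,
    (∀ T : Fin 0 → Finset ℕ, Ψ 0 T = Finsupp.single T 1) ∧
    (∀ k (T : Fin (k + 1) → Finset ℕ), RA.bdT (Ψ (k + 1) T) =
      ∑ i : Fin (k + 1), ((-1 : ℝ) ^ (i : ℕ)) • Ψ k fun j => T (i.succAbove j)) ∧
    (∀ k (T : Fin k → Finset ℕ), KF L T → ∀ s ∈ (Ψ k T).support,
      CmpT L s ∧ ∀ i, s i ⊆ RA.Wt T) ∧
    (∀ k (T : Fin k → Finset ℕ), RA.KG L (RA.TrivP L) T → ∀ s ∈ (Ψ k T).support,
      ∀ i, (s i).card = 1) ∧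
    ∀ k (T : Fin k → Finset ℕ), ∑ s ∈ (Ψ k T).support, |Ψ k T s| ≤ (k.factorial : ℝ)

/-- The linear functional with weight `φ`. -/
noncomputable def jf (V : Finset ℕ) (φ : Finset ℕ → Finset ℕ → ℝ) : JC →ₗ[ℝ] ℝ where
  toFun c := ∑ σ ∈ V.powerset, ∑ τ ∈ V.powerset, c σ τ * φ σ τ
  map_add' x y := by
    simp only [Pi.add_apply, add_mul, Finset.sum_add_distrib]
  map_smul' r x := by
    simp only [Pi.smul_apply, smul_eq_mul, RingHom.id_apply, Finset.mul_sum, mul_assoc]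

/-- ALT: the chain of a tuple has l1-norm at most one.

Proof.  By the second part of `S_J3` (proved: `allJ3`) `altJ k t σ τ ≠ 0` implies
`σ.card + τ.card = k`, `σ ⊆ image of the entries of type false`, `τ ⊆ image of the entries of type
true`; the cardinalities of these images are at most the numbers of entries of the two types, whose
sum is `k`; so `σ` and `τ` are equal to these images: at most one nonzero value.  Its absolute
value is at most `1` by induction on `k` (`altJ`, `wJ`, `wP`, `wM`, `RA.sg` is a sign). -/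
def S_ALT : Prop := ∀ (V : Finset ℕ) (φ : Finset ℕ → Finset ℕ → ℝ) (_ : ∀ σ τ, |φ σ τ| ≤ 1)
  (k : ℕ) (t : Fin k → ℕ × Bool), |jf V φ (altJ k t)| ≤ 1

/-- THB: the random vertex map is bounded.

Proof.  `Th L ν s = ∑ A, dens ν V s A • altJ ..` (`V = verts L`), so
`|φ (Th L ν s)| ≤ ∑_{A ⊆ V} |dens ν V s A|
  = (1/2) ^ |V| ∑_{A ⊆ V} ∏_{C ∈ 𝒞} 2 ^ |C| |ν C (A ∩ C)|`, `𝒞 = {C ∈ univ.image s | 1 < |C|}`.
The elements of `𝒞` are pairwise disjoint: `Cmp L C C'` for `C ≠ C'` in `𝒞` means that all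
`a ∈ C`, `b ∈ C'` are adjacent, so different.  They are subsets of `V` (`Cls`: unions of two
faces) and have at most `2 * d` elements.  For pairwise disjoint subsets `C ∈ 𝒞` of `V` and
functions `h C`: `∑_{A ⊆ V} ∏_{C ∈ 𝒞} h C (A ∩ C) = 2 ^ (|V| - ∑ |C|) ∏_{C ∈ 𝒞} ∑_{B ⊆ C} h C B`
(induction on `𝒞`; an inequality `≤` for `h ≥ 0` suffices).  So the sum is
`≤ ∏_{C ∈ 𝒞} ∑_{B ⊆ C} |ν C B| ≤ (2 ^ (2 * d) * 4 ^ (2 * d + 1)) ^ d`
(at most `k ≤ d` factors, each of them bounded by the number `≥ 1` in brackets). -/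
def S_THB : Prop := ∀ d : ℕ, ∃ K : ℝ, 0 ≤ K ∧ ∀ (L : Finset (Finset ℕ)) (_ : FlagC L)
  (_ : ∀ s ∈ L, s.card ≤ d) (ν : Finset ℕ → Finset ℕ → ℝ)
  (_ : ∀ C, Cls L C → 1 < C.card → IsNu L C (ν C) ∧ ∀ A, |ν C A| ≤ 4 ^ (C.card + 1))
  (φ : JC →ₗ[ℝ] ℝ) (_ : ∀ (k : ℕ) (t : Fin k → ℕ × Bool), |φ (altJ k t)| ≤ 1)
  (k : ℕ) (_ : k ≤ d) (s : Fin k → Finset ℕ) (_ : CmpT L s), |φ (Th L ν s)| ≤ K

/-! ### The degree functional of a fan -/

/-- The vectors of the cell `(σ, τ)` of the deleted join: the vectors of `σ` in increasing order,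
then the negatives of the vectors of `τ` in increasing order. -/
noncomputable def cv {n : ℕ} (P : ℕ → Fin n → ℝ) (σ τ : Finset ℕ) (k : ℕ) : Fin k → Fin n → ℝ :=
  fun i => ((σ.sort (· ≤ ·)).map P ++ (τ.sort (· ≤ ·)).map fun a => - P a).getD i 0

/-- The weight: the signed indicator of `w ∈ cone (cv P σ τ)` (`Eu.Df w y` is the sign of the
determinant of `y` if all coordinates of `w` in the basis `y` are positive, otherwise `0`). -/
noncomputable def dg {n : ℕ} (P : ℕ → Fin n → ℝ) (w : Fin n → ℝ) (σ τ : Finset ℕ) : ℝ :=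
  if σ.card + τ.card = n then Eu.Df w (cv P σ τ n) else 0

/-- `w` is generic: not in a span of less than `n` of the vectors. -/
def GenW {n : ℕ} (V : Finset ℕ) (P : ℕ → Fin n → ℝ) (w : Fin n → ℝ) : Prop :=
  ∀ T ⊆ V, T.card < n → w ∉ Submodule.span ℝ (P '' (T : Set ℕ))

/-- GEN: there is a generic vector in the open cone of a face with `n` vertices.

Proof.  Let `s = {v_0 < .. < v_(n-1)}`; the vectors `P v`, `v ∈ s`, are linearly independent
(`IsFan`), so a basis.  Put `w(x) = ∑ i, x ^ i • P v_i`, `x > 0`.  For every `T ⊆ V` with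
`T.card < n` the span of `P '' T` is a proper subspace, so there is a linear functional `l ≠ 0`
which vanishes on it (`Submodule.exists_le_ker_of_lt_top` or similar), and
`l (w(x)) = ∑ i, l (P v_i) x ^ i` is a nonzero polynomial in `x` with finitely many roots; there
are finitely many `T`; take `x > 0` which is not a root of any of these polynomials. -/
def S_GEN : Prop := ∀ (n : ℕ) (L : Finset (Finset ℕ)) (_ : FlagC L) (P : ℕ → Fin n → ℝ)
  (_ : IsFan L P) (s : Finset ℕ) (_ : s ∈ L) (_ : s.card = n) (V : Finset ℕ),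
  ∃ (w : Fin n → ℝ) (a : ℕ → ℝ), GenW V P w ∧ (∀ v ∈ s, 0 < a v) ∧ w = ∑ v ∈ s, a v • P v

/-- CLO: closedness for one cell.

Proof.  Let `u = cv P σ τ (n + 1)`, `n + 1` vectors, `c_i = (-1) ^ i det (u without i)`,
`∑ c_i u_i = 0` (`Eu.S_DG1`).  Removing the vertex `a ∈ σ` is removing the entry at position
`#{b ∈ σ | b < a}` and `RA.sg a (σ.erase a) = (-1) ^ #{b ∈ σ | b < a}`; removing `a ∈ τ` is
removing the entry at position `σ.card + #{b ∈ τ | b < a}`.  So the sum is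
`∑ i, (-1) ^ i * Eu.Df w (u ∘ i.succAbove)`.  If all `c_i ≥ 0` (or all `≤ 0`) and not all are `0`,
then `∑_{σ'} |c| P v = ∑_{τ'} |c| P v` for the sets `σ' ⊆ σ`, `τ' ⊆ τ` of the vertices with
`c ≠ 0`, faces of `L`, so `σ' = τ'` by `IsFan`, so both are empty (`σ`, `τ` disjoint):
contradiction.  If all `c_i = 0` then all terms are `0` (the determinants vanish, `Eu.Df`).
Otherwise there are `i`, `j` with `c_i > 0`, `c_j < 0` and `Eu.S_DG2` (proved in Eu/DG2.lean) says
that the sum is `0`; its genericity hypothesis follows from `GenW` (`n - 1` vectors `± P v`). -/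
def S_CLO : Prop := ∀ (n : ℕ) (L : Finset (Finset ℕ)) (_ : FlagC L) (P : ℕ → Fin n → ℝ)
  (_ : IsFan L P) (w : Fin n → ℝ) (_ : GenW (verts L) P w) (σ τ : Finset ℕ) (_ : σ ∈ L)
  (_ : τ ∈ L) (_ : Disjoint σ τ) (_ : σ.card + τ.card = n + 1),
  ∑ a ∈ σ, RA.sg a (σ.erase a) * dg P w (σ.erase a) τ +
    ∑ a ∈ τ, (-1) ^ σ.card * RA.sg a (τ.erase a) * dg P w σ (τ.erase a) = 0

/-- DGJ: the degree functional.

Proof.  Take a tuple `s0` with `o s0 ≠ 0`; by `IsOrient` it is injective (`alt`) and its image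
`s1` is in `L`, `s1.card = m + 1`.  Take `w`, `a` from `GEN` with `s := s1`, `V := verts L` and
`φ := dg P w`.  `|dg| ≤ 1`: `Eu.Df` has values `-1, 0, 1`.  Closedness: exchange the sums,
`jf V φ (dJ V y) = ∑_{σ, τ} y σ τ * (the expression in CLO for σ, τ)`, (the pairs
`(σ', a ∉ σ')` correspond to the pairs `(σ = insert a σ', a ∈ σ)`), and `y σ τ ≠ 0` implies the
hypotheses of `CLO` with `n = m + 1` (`IsJ L (m + 2) y`).  Value: `sp ∅ (RA.oF o) σ τ` is
`RA.oF o σ` if `τ = ∅` and `0` otherwise (`RA.sgg σ ∅ = 1`), so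
`jf V φ (sp ∅ (RA.oF o)) = ∑_σ RA.oF o σ * dg P w σ ∅`.  If `RA.oF o σ ≠ 0` then `σ ∈ L`,
`σ.card = m + 1` (`P2.oF_supp`), and if `dg P w σ ∅ ≠ 0` then `w = ∑_{v ∈ σ} b v • P v` with
`b v > 0`, so `σ = s1` by `IsFan`.  For `σ = s1`: `dg P w s1 ∅ = ± 1` and `RA.oF o s1 = o (sorted
tuple) = ± o s0 ≠ 0`, an integer. -/
def S_DGJ : Prop := ∀ (m : ℕ) (L : Finset (Finset ℕ)) (_ : FlagC L) (P : ℕ → Fin (m + 1) → ℝ)
  (_ : IsFan L P) (o : (Fin (m + 1) → ℕ) → ℤ) (_ : IsOrient L (m + 1) o) (_ : ∃ s, o s ≠ 0),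
  ∃ φ : Finset ℕ → Finset ℕ → ℝ, (∀ σ τ, |φ σ τ| ≤ 1) ∧
    (∀ y, IsJ L (m + 2) y → jf (verts L) φ (dJ (verts L) y) = 0) ∧
    1 ≤ |jf (verts L) φ (sp ∅ (RA.oF o))|

/-! ### The local functions and the theorem -/

/-- FLO: the local functions of a fan, with a bound which depends only on the dimension.

Proof.  `d = m + 1` (`DIM`), `K` from `THB` for `d`, `C := (m + 1)! * K`.  Let `Ψ` (`PSB`), `ν`
(`NUB`, choose), `φ` (`DGJ`; `∃ s, o s ≠ 0` by `UOR` with `o' = o`), `λ := jf (verts L) φ`, and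
`f T := λ (linearCombination (Th L ν) (Ψ (m + 1) T))` if `KF L T`, otherwise `0`; finally multiply
`f` by a sign.  (1) `|f T| ≤ C` by `PSB`, `ALT`, `THB`.  (2) `RA.dl f T = 0` for `KF L T` (length
`m + 2`): all faces of `T` are in `KF` (`PS3.KF_comp`), `TH2`, `TH3` and `DGJ`, exactly as in the
proof of `prfP2` (there: `hΦbd`, `hΦJ`).  (3) Value on `zeta`: the proof of `prfP2` shows
`linearCombination Φ (zeta) = (-2) ^ m • ∑_A (1/2)^|V| • sp A (oF o)` (`hval`),
`SP5` rewrites the sum as `∑_{A ∈ L} wN L V A • sp A (oF o)`, `λ (sp A (oF o)) = 0` for `A ≠ ∅`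
by `SP6` and `DGJ`, and `wN L V ∅ = ∑_{s ∈ L} (-1/2)^|s|`.  So the value is
`(-2) ^ m * (∑_{s ∈ L} (-1/2)^|s|) * λ (sp ∅ (oF o))`, and `|(-2)^m * λ(..)| ≥ 1`. -/
def S_FLO : Prop := ∀ m : ℕ, ∃ C : ℝ, 0 ≤ C ∧ ∀ (L : Finset (Finset ℕ)) (_ : FlagC L)
  (_ : RA.IsHSphere L (m + 1)) (P : ℕ → Fin (m + 1) → ℝ) (_ : IsFan L P)
  (o : (Fin (m + 1) → ℕ) → ℤ) (_ : IsOrient L (m + 1) o),
  ∃ f : (Fin (m + 1) → Finset ℕ) → ℝ,
    (∀ T : Fin (m + 2) → Finset ℕ, KF L T → RA.dl f T = 0) ∧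
    (∀ T : Fin (m + 1) → Finset ℕ, |f T| ≤ C) ∧
    |∑ s ∈ L, (-1 / 2 : ℝ) ^ s.card| ≤ Finsupp.linearCombination ℝ f (RA.zeta L o)

/-- The vertices which are counted: at most `N` neighbours, or the link is a simplicial fan. -/
def Tame (X : SimpleGraph ℕ) (m N x : ℕ) : Prop :=
  (nbr X x).card ≤ N ∨ ∃ P : ℕ → Fin (m + 1) → ℝ, IsFan (link X x) P

/-- DMain: the theorem.

Proof: as `prfUMain` (Bd/B11.lean), with `DBD` (`d = m + 1`, `DIM`) instead of `UBD`, with the
constant `max` of `FLO m` and `ULO m N`, with `f0 x` from `ULO` if `(nbr X x).card ≤ N`, from `FLO`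
if the link is a fan, and `f0 x = 0` for all other `x`; the sums run over the tame vertices. -/
def S_DMain : Prop := ∀ m N : ℕ, ∃ c : ℝ, 0 < c ∧
  ∀ (X : SimpleGraph ℕ) (_ : IsMedianGraph X) (_ : LocFin X)
    (_ : ∀ x, RA.IsHSphere (link X x) (m + 1))
    (Γ : Subgroup (Equiv.Perm ℕ)) (F : Finset ℕ) (_ : IsDeck X Γ F)
    (o : ℕ → (Fin (m + 1) → ℕ) → ℤ) (_ : Oriented X Γ (m + 1) o)
    (Y : Type) [TopologicalSpace Y] (f : C(Y, Mfd X Γ)) (lam : ℝ)
    (z : SChain Y (m + 1)) (w : SChain (Mfd X Γ) (m + 2)),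
    push f z = lam • fundCycle X Γ F o + bd w →
    c * |lam| * ∑ x ∈ F.filter (Tame X m N), |∑ s ∈ link X x, (-1 / 2 : ℝ) ^ s.card| ≤ l1 z

end MP8a95ee.Npc
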