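import Pool.Agent.Work.MP_8a95ee_gt.Un.Stmts
import Pool.Agent.Work.MP_8a95ee_gt.Bd.B02

/-!
MP_8a95ee_gt, block U, item CLO: closedness for one cell.
-/

set_option autoImplicit false

namespace MP8a95ee.Npc.CLOP

open Classical

/-- the `i`-th element of a finite set -/
lemma count_lt (s : Finset ℕ) (i : Fin s.card) :
    ((s.filter fun b => b < s.orderEmbOfFin rfl i).card : ℕ) = i := by
  have h : (s.filter fun b => b < s.orderEmbOfFin rfl i) =
      (Finset.univ.filter (fun j : Fin s.card => j < i)).map (s.orderEmbOfFin rfl).toEmbedding := by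
    ext b
    simp only [Finset.mem_filter, Finset.mem_map, Finset.mem_univ, true_and]
    constructor
    · rintro ⟨hb, hlt⟩
      have : b ∈ Set.range (s.orderEmbOfFin rfl) := by
        rw [Finset.range_orderEmbOfFin]; exact hb
      obtain ⟨j, rfl⟩ := this
      exact ⟨j, (s.orderEmbOfFin rfl).lt_iff_lt.mp hlt, rfl⟩
    · rintro ⟨j, hj, rfl⟩
      exact ⟨s.orderEmbOfFin_mem rfl j, (s.orderEmbOfFin rfl).lt_iff_lt.mpr hj⟩
  rw [h, Finset.card_map]
  have : (Finset.univ.filter (fun j : Fin s.card => j < i)) = Finset.Iio i := by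
    ext j; simp
  rw [this, Fin.card_Iio]

lemma sg_erase (s : Finset ℕ) (i : Fin s.card) :
    RA.sg (s.orderEmbOfFin rfl i) (s.erase (s.orderEmbOfFin rfl i)) = (-1) ^ (i : ℕ) := by
  unfold RA.sg
  rw [← count_lt s i]
  congr 2
  ext b
  simp only [Finset.mem_filter, Finset.mem_erase]
  constructor
  · rintro ⟨⟨_, h⟩, h'⟩; exact ⟨h, h'⟩
  · rintro ⟨h, h'⟩; exact ⟨⟨h'.ne, h⟩, h'⟩

lemma sort_erase (s : Finset ℕ) (i : Fin s.card) :
    (s.erase (s.orderEmbOfFin rfl i)).sort (· ≤ ·) = (s.sort (· ≤ ·)).eraseIdx i := by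
  have hn : (s.sort (· ≤ ·)).Nodup := s.sort_nodup _
  have hi : (i : ℕ) < (s.sort (· ≤ ·)).length := by rw [Finset.length_sort]; exact i.2
  have h1 : ((s.sort (· ≤ ·)).eraseIdx i).toFinset = s.erase (s.orderEmbOfFin rfl i) := by
    have h2 : (s.sort (· ≤ ·)).eraseIdx i = (s.sort (· ≤ ·)).erase ((s.sort (· ≤ ·))[(i : ℕ)]) := by
      rw [List.Nodup.erase_getElem hn]
    rw [h2]
    ext b
    rw [List.mem_toFinset, List.Nodup.mem_erase_iff hn, Finset.mem_sort, Finset.mem_erase,
      Finset.orderEmbOfFin_apply]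
    rfl
  rw [← h1, List.toFinset_sort]
  · exact (s.pairwise_sort _).sublist (List.eraseIdx_sublist _ _)
  · exact hn.sublist (List.eraseIdx_sublist _ _)

/-- the list of the vectors of the cell -/
noncomputable def cl {n : ℕ} (P : ℕ → Fin n → ℝ) (σ τ : Finset ℕ) : List (Fin n → ℝ) :=
  (σ.sort (· ≤ ·)).map P ++ (τ.sort (· ≤ ·)).map fun a => - P a

lemma cl_length {n : ℕ} (P : ℕ → Fin n → ℝ) (σ τ : Finset ℕ) :
    (cl P σ τ).length = σ.card + τ.card := by
  unfold cl
  rw [List.length_append, List.length_map, List.length_map, Finset.length_sort,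
    Finset.length_sort]

lemma cl_erase_left {n : ℕ} (P : ℕ → Fin n → ℝ) (σ τ : Finset ℕ) (i : Fin σ.card) :
    cl P (σ.erase (σ.orderEmbOfFin rfl i)) τ = (cl P σ τ).eraseIdx i := by
  unfold cl
  rw [sort_erase, List.eraseIdx_append_of_lt_length, List.eraseIdx_map]
  rw [List.length_map, Finset.length_sort]
  exact i.2

lemma cl_erase_right {n : ℕ} (P : ℕ → Fin n → ℝ) (σ τ : Finset ℕ) (i : Fin τ.card) :
    cl P σ (τ.erase (τ.orderEmbOfFin rfl i)) = (cl P σ τ).eraseIdx (σ.card + i) := by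
  unfold cl
  rw [sort_erase, List.eraseIdx_append_of_length_le, List.eraseIdx_map]
  · congr 3
    rw [List.length_map, Finset.length_sort]
    omega
  · rw [List.length_map, Finset.length_sort]
    omega

/-- the value of the list without its `i`-th element -/
noncomputable def hh {n : ℕ} (w : Fin n → ℝ) (l : List (Fin n → ℝ)) (i : ℕ) : ℝ :=
  Eu.Df w (fun j : Fin n => (l.eraseIdx i).getD j 0)

lemma getD_erase {α : Type*} (l : List α) (d : α) (n : ℕ) (i : Fin (n + 1)) (j : Fin n) :
    (l.eraseIdx i).getD j d = l.getD (i.succAbove j : Fin (n + 1)) d := by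
  rw [List.getD_eq_getElem?_getD, List.getD_eq_getElem?_getD, List.getElem?_eraseIdx]
  unfold Fin.succAbove
  by_cases h : (j : ℕ) < i
  · rw [if_pos h, if_pos (by exact h)]
    rfl
  · rw [if_neg h, if_neg (by exact h)]
    rfl

lemma sum_eq (n : ℕ) (P : ℕ → Fin n → ℝ) (w : Fin n → ℝ) (σ τ : Finset ℕ)
    (hc : σ.card + τ.card = n + 1) :
    ∑ a ∈ σ, RA.sg a (σ.erase a) * dg P w (σ.erase a) τ +
      ∑ a ∈ τ, (-1) ^ σ.card * RA.sg a (τ.erase a) * dg P w σ (τ.erase a) =
    ∑ i : Fin (n + 1), (-1 : ℝ) ^ (i : ℕ) *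
      Eu.Df w (fun j : Fin n => cv P σ τ (n + 1) (i.succAbove j)) := by
  have h1 : ∑ a ∈ σ, RA.sg a (σ.erase a) * dg P w (σ.erase a) τ =
      ∑ i ∈ Finset.range σ.card, (-1 : ℝ) ^ i * hh w (cl P σ τ) i := by
    rw [Finset.sum_range]
    conv_lhs => rw [← σ.map_orderEmbOfFin_univ rfl]
    rw [Finset.sum_map]
    apply Finset.sum_congr rfl
    intro i _
    have h2 : RA.sg ((σ.orderEmbOfFin rfl).toEmbedding i)
        (σ.erase ((σ.orderEmbOfFin rfl).toEmbedding i)) = (-1) ^ (i : ℕ) := sg_erase σ i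
    have h3 : (σ.erase ((σ.orderEmbOfFin rfl).toEmbedding i)).card + τ.card = n := by
      have hm : (σ.orderEmbOfFin rfl).toEmbedding i ∈ σ := σ.orderEmbOfFin_mem rfl i
      rw [Finset.card_erase_of_mem hm]
      have := i.2
      omega
    have h4 : ((Finset.map (σ.orderEmbOfFin rfl).toEmbedding Finset.univ)) = σ :=
      σ.map_orderEmbOfFin_univ rfl
    rw [h4, h2]
    congr 1
    unfold dg
    rw [if_pos h3]
    unfold hh
    rw [← cl_erase_left]
    rfl
  have h1' : ∑ a ∈ τ, (-1) ^ σ.card * RA.sg a (τ.erase a) * dg P w σ (τ.erase a) =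
      ∑ i ∈ Finset.range τ.card, (-1 : ℝ) ^ (σ.card + i) * hh w (cl P σ τ) (σ.card + i) := by
    rw [Finset.sum_range]
    conv_lhs => rw [← τ.map_orderEmbOfFin_univ rfl]
    rw [Finset.sum_map]
    apply Finset.sum_congr rfl
    intro i _
    have h2 : RA.sg ((τ.orderEmbOfFin rfl).toEmbedding i)
        (τ.erase ((τ.orderEmbOfFin rfl).toEmbedding i)) = (-1) ^ (i : ℕ) := sg_erase τ i
    have h3 : σ.card + (τ.erase ((τ.orderEmbOfFin rfl).toEmbedding i)).card = n := by
      have hm : (τ.orderEmbOfFin rfl).toEmbedding i ∈ τ := τ.orderEmbOfFin_mem rfl i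
      rw [Finset.card_erase_of_mem hm]
      have := i.2
      omega
    have h4 : ((Finset.map (τ.orderEmbOfFin rfl).toEmbedding Finset.univ)) = τ :=
      τ.map_orderEmbOfFin_univ rfl
    rw [h4, h2, pow_add]
    congr 1
    unfold dg
    rw [if_pos h3]
    unfold hh
    rw [← cl_erase_right]
    rfl
  rw [h1, h1', ← Finset.sum_range_add (fun i => (-1 : ℝ) ^ i * hh w (cl P σ τ) i), hc,
    Finset.sum_range]
  apply Finset.sum_congr rfl
  intro i _
  congr 1
  unfold hh
  congr 1
  funext j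
  rw [getD_erase]
  rfl

/-- the list of the vertices of the cell -/
def vl (σ τ : Finset ℕ) : List ℕ := σ.sort (· ≤ ·) ++ τ.sort (· ≤ ·)

/-- the `k`-th vertex of the cell -/
def vt (σ τ : Finset ℕ) (k : ℕ) : ℕ := (vl σ τ).getD k 0

lemma vl_length (σ τ : Finset ℕ) : (vl σ τ).length = σ.card + τ.card := by
  unfold vl
  rw [List.length_append, Finset.length_sort, Finset.length_sort]

lemma vl_nodup {σ τ : Finset ℕ} (h : Disjoint σ τ) : (vl σ τ).Nodup := by
  unfold vl
  rw [List.nodup_append]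
  refine ⟨σ.sort_nodup _, τ.sort_nodup _, ?_⟩
  intro a ha b hb hab
  rw [Finset.mem_sort] at ha hb
  exact Finset.disjoint_left.mp h ha (hab ▸ hb)

lemma vt_inj {σ τ : Finset ℕ} (h : Disjoint σ τ) {n : ℕ} (hc : σ.card + τ.card = n + 1)
    {i j : Fin (n + 1)} (hij : vt σ τ i = vt σ τ j) : i = j := by
  have hi : (i : ℕ) < (vl σ τ).length := by rw [vl_length, hc]; exact i.2
  have hj : (j : ℕ) < (vl σ τ).length := by rw [vl_length, hc]; exact j.2
  unfold vt at hij
  rw [List.getD_eq_getElem _ _ hi, List.getD_eq_getElem _ _ hj,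
    (vl_nodup h).getElem_inj_iff] at hij
  exact Fin.ext hij

lemma vt_left {σ τ : Finset ℕ} {k : ℕ} (h : k < σ.card) : vt σ τ k ∈ σ := by
  have hk : k < (σ.sort (· ≤ ·)).length := by rw [Finset.length_sort]; exact h
  unfold vt vl
  rw [List.getD_append _ _ _ _ hk, List.getD_eq_getElem _ _ hk]
  exact (Finset.mem_sort _).mp (List.getElem_mem hk)

lemma vt_right {σ τ : Finset ℕ} {k : ℕ} (h : σ.card ≤ k) (h' : k < σ.card + τ.card) :
    vt σ τ k ∈ τ := by
  have hk : (σ.sort (· ≤ ·)).length ≤ k := by rw [Finset.length_sort]; exact h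
  have hk' : k - (σ.sort (· ≤ ·)).length < (τ.sort (· ≤ ·)).length := by
    rw [Finset.length_sort, Finset.length_sort]; omega
  unfold vt vl
  rw [List.getD_append_right _ _ _ _ hk, List.getD_eq_getElem _ _ hk']
  exact (Finset.mem_sort _).mp (List.getElem_mem hk')

lemma cv_left {n : ℕ} (P : ℕ → Fin n → ℝ) {σ τ : Finset ℕ} {m : ℕ} {k : Fin m}
    (h : (k : ℕ) < σ.card) : cv P σ τ m k = P (vt σ τ k) := by
  have hk : (k : ℕ) < (σ.sort (· ≤ ·)).length := by rw [Finset.length_sort]; exact h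
  have hk' : (k : ℕ) < ((σ.sort (· ≤ ·)).map P).length := by rw [List.length_map]; exact hk
  unfold cv vt vl
  rw [List.getD_append _ _ _ _ hk', List.getD_append _ _ _ _ hk, List.getD_eq_getElem _ _ hk,
    List.getD_eq_getElem _ _ hk', List.getElem_map]

lemma cv_right {n : ℕ} (P : ℕ → Fin n → ℝ) {σ τ : Finset ℕ} {m : ℕ} {k : Fin m}
    (h : σ.card ≤ k) (h' : (k : ℕ) < σ.card + τ.card) : cv P σ τ m k = - P (vt σ τ k) := by
  have hk : (σ.sort (· ≤ ·)).length ≤ k := by rw [Finset.length_sort]; exact h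
  have hk1 : ((σ.sort (· ≤ ·)).map P).length ≤ k := by rw [List.length_map]; exact hk
  have hk' : k - (σ.sort (· ≤ ·)).length < (τ.sort (· ≤ ·)).length := by
    rw [Finset.length_sort, Finset.length_sort]; omega
  have hk2 : k - ((σ.sort (· ≤ ·)).map P).length <
      ((τ.sort (· ≤ ·)).map fun a => - P a).length := by
    rw [List.length_map, List.length_map]; exact hk'
  unfold cv vt vl
  rw [List.getD_append_right _ _ _ _ hk1, List.getD_append_right _ _ _ _ hk,
    List.getD_eq_getElem _ _ hk', List.getD_eq_getElem _ _ hk2, List.getElem_map]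
  simp only [List.length_map]

/-- if all coefficients of the relation have the same sign, then all are zero -/
lemma all_zero (n : ℕ) (L : Finset (Finset ℕ)) (hL : FlagC L) (P : ℕ → Fin n → ℝ)
    (hP : IsFan L P) (σ τ : Finset ℕ) (hσ : σ ∈ L) (hτ : τ ∈ L) (hd : Disjoint σ τ)
    (hc : σ.card + τ.card = n + 1) (c : Fin (n + 1) → ℝ) (hpos : ∀ i, 0 ≤ c i)
    (hrel : ∑ i, c i • cv P σ τ (n + 1) i = 0) (i : Fin (n + 1)) : c i = 0 := by
  -- coefficient of a vertex
  set a : ℕ → ℝ := fun v => ∑ k : Fin (n + 1), if vt σ τ k = v then c k else 0 with ha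
  have hav : ∀ k : Fin (n + 1), a (vt σ τ k) = c k := by
    intro k
    simp only [ha]
    rw [Finset.sum_eq_single k]
    · rw [if_pos rfl]
    · intro b _ hb
      rw [if_neg]
      intro h
      exact hb (vt_inj hd hc h)
    · intro h; exact absurd (Finset.mem_univ k) h
  have ha0 : ∀ v, 0 ≤ a v := fun v => Finset.sum_nonneg fun k _ => by
    split_ifs
    · exact hpos k
    · exact le_rfl
  have hsub : ∀ s ∈ L, ∀ t ⊆ s, t ∈ L := fun s hs t hts =>
    (hL t).mpr fun x hx y hy => (hL s).mp hs x (hts hx) y (hts hy)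
  -- the sum over a set of vertices
  have hsum : ∀ s : Finset ℕ, ∑ v ∈ s, a v • P v =
      ∑ k : Fin (n + 1), if vt σ τ k ∈ s then c k • P (vt σ τ k) else 0 := by
    intro s
    simp only [ha, Finset.sum_smul]
    rw [Finset.sum_comm]
    apply Finset.sum_congr rfl
    intro k _
    by_cases hk : vt σ τ k ∈ s
    · rw [if_pos hk, Finset.sum_eq_single (vt σ τ k)]
      · rw [if_pos rfl]
      · intro b _ hb
        rw [if_neg (Ne.symm hb), zero_smul]
      · intro h; exact absurd hk h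
    · rw [if_neg hk]
      apply Finset.sum_eq_zero
      intro b hb
      rw [if_neg, zero_smul]
      rintro rfl
      exact hk hb
  have heq : ∑ v ∈ σ, a v • P v = ∑ v ∈ τ, a v • P v := by
    rw [← sub_eq_zero, hsum, hsum, ← Finset.sum_sub_distrib]
    refine Eq.trans ?_ hrel
    apply Finset.sum_congr rfl
    intro k _
    by_cases hk : (k : ℕ) < σ.card
    · have h1 := vt_left (τ := τ) hk
      rw [if_pos h1, if_neg (Finset.disjoint_left.mp hd h1), cv_left P hk, sub_zero]
    · have hk1 : σ.card ≤ k := not_lt.mp hk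
      have hk2 : (k : ℕ) < σ.card + τ.card := by rw [hc]; exact k.2
      have h1 := vt_right hk1 hk2
      rw [if_pos h1, if_neg (Finset.disjoint_right.mp hd h1), cv_right P hk1 hk2, smul_neg,
        zero_sub]
  have hfil : ∀ s : Finset ℕ, ∑ v ∈ s.filter (fun v => a v ≠ 0), a v • P v =
      ∑ v ∈ s, a v • P v := by
    intro s
    apply Finset.sum_filter_of_ne
    intro v _ hv h0
    exact hv (by rw [h0, zero_smul])
  have hst : σ.filter (fun v => a v ≠ 0) = τ.filter (fun v => a v ≠ 0) := by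
    apply hP _ (hsub σ hσ _ (Finset.filter_subset _ _)) _ (hsub τ hτ _ (Finset.filter_subset _ _))
      a a
    · intro v hv
      exact lt_of_le_of_ne (ha0 v) (Ne.symm (Finset.mem_filter.mp hv).2)
    · intro v hv
      exact lt_of_le_of_ne (ha0 v) (Ne.symm (Finset.mem_filter.mp hv).2)
    · rw [hfil, hfil, heq]
  by_contra hi
  have hai : a (vt σ τ i) ≠ 0 := by rw [hav]; exact hi
  by_cases hk : (i : ℕ) < σ.card
  · have h1 : vt σ τ i ∈ σ.filter (fun v => a v ≠ 0) :=
      Finset.mem_filter.mpr ⟨vt_left hk, hai⟩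
    have h2 : vt σ τ i ∈ τ.filter (fun v => a v ≠ 0) := hst ▸ h1
    exact Finset.disjoint_left.mp hd (Finset.mem_filter.mp h1).1 (Finset.mem_filter.mp h2).1
  · have hk1 : σ.card ≤ i := not_lt.mp hk
    have hk2 : (i : ℕ) < σ.card + τ.card := by rw [hc]; exact i.2
    have h1 : vt σ τ i ∈ τ.filter (fun v => a v ≠ 0) :=
      Finset.mem_filter.mpr ⟨vt_right hk1 hk2, hai⟩
    have h2 : vt σ τ i ∈ σ.filter (fun v => a v ≠ 0) := hst ▸ h1
    exact Finset.disjoint_left.mp hd (Finset.mem_filter.mp h2).1 (Finset.mem_filter.mp h1).1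

theorem prf : S_CLO := by
  intro n L hL P hP w hw σ τ hσ hτ hd hc
  rw [sum_eq n P w σ τ hc]
  set u : Fin (n + 1) → Fin n → ℝ := cv P σ τ (n + 1) with hu
  set c : Fin (n + 1) → ℝ := fun i =>
    (-1 : ℝ) ^ (i : ℕ) * Matrix.det (fun j : Fin n => u (i.succAbove j)) with hcd
  have hrel : ∑ i, c i • u i = 0 := Eu.prfDG1 n u
  by_cases h1 : ∃ i, 0 < c i
  · by_cases h2 : ∃ i, c i < 0
    · refine (Eu.prfDG2 Eu.prfDG1 n u w ?_).1 h1 h2
      intro i j hij
      have hn : 1 ≤ n := by
        by_contra h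
        have h0 : n = 0 := by omega
        subst h0
        exact hij (by omega)
      set T : Finset ℕ := (Finset.univ.filter fun k : Fin (n + 1) => k ≠ i ∧ k ≠ j).image
        (fun k : Fin (n + 1) => vt σ τ k) with hT
      have hvt : ∀ k : Fin (n + 1), vt σ τ k ∈ verts L := by
        intro k
        unfold verts
        by_cases hk : (k : ℕ) < σ.card
        · exact Finset.mem_biUnion.mpr ⟨σ, hσ, vt_left hk⟩
        · have hk2 : (k : ℕ) < σ.card + τ.card := by rw [hc]; exact k.2
          exact Finset.mem_biUnion.mpr ⟨τ, hτ, vt_right (not_lt.mp hk) hk2⟩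
      have hTV : T ⊆ verts L := by
        intro v hv
        obtain ⟨k, _, rfl⟩ := Finset.mem_image.mp hv
        exact hvt k
      have hTc : T.card < n := by
        refine lt_of_le_of_lt Finset.card_image_le ?_
        have h3 : (Finset.univ.filter fun k : Fin (n + 1) => k ≠ i ∧ k ≠ j) ⊆
            (Finset.univ.erase i).erase j := by
          intro k hk
          rw [Finset.mem_filter] at hk
          exact Finset.mem_erase.mpr ⟨hk.2.2, Finset.mem_erase.mpr ⟨hk.2.1, Finset.mem_univ k⟩⟩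
        refine lt_of_le_of_lt (Finset.card_le_card h3) ?_
        rw [Finset.card_erase_of_mem (Finset.mem_erase.mpr ⟨Ne.symm hij, Finset.mem_univ j⟩),
          Finset.card_erase_of_mem (Finset.mem_univ i), Finset.card_univ, Fintype.card_fin]
        omega
      intro hmem
      apply hw T hTV hTc
      refine Submodule.span_le.mpr ?_ hmem
      rintro x ⟨k, hk, rfl⟩
      have hkT : vt σ τ k ∈ T := Finset.mem_image.mpr
        ⟨k, Finset.mem_filter.mpr ⟨Finset.mem_univ k, hk⟩, rfl⟩
      have hP1 : P (vt σ τ k) ∈ Submodule.span ℝ (P '' (T : Set ℕ)) :=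
        Submodule.subset_span ⟨_, hkT, rfl⟩
      by_cases hk : (k : ℕ) < σ.card
      · rw [hu, cv_left P hk]; exact hP1
      · rw [hu, cv_right P (not_lt.mp hk) (by rw [hc]; exact k.2)]
        exact Submodule.neg_mem _ hP1
    · have h2' : ∀ i, 0 ≤ c i := fun i => not_lt.mp fun h => h2 ⟨i, h⟩
      obtain ⟨i, hi⟩ := h1
      exact absurd (all_zero n L hL P hP σ τ hσ hτ hd hc c h2' hrel i) (ne_of_gt hi)
  · have h1' : ∀ i, 0 ≤ - c i := fun i => by
      have := not_lt.mp fun h => h1 ⟨i, h⟩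
      linarith
    have hrel' : ∑ i, (- c i) • u i = 0 := by
      simp only [neg_smul, Finset.sum_neg_distrib, hrel, neg_zero]
    have h0 : ∀ i, c i = 0 := fun i => by
      have := all_zero n L hL P hP σ τ hσ hτ hd hc (fun i => - c i) h1' hrel' i
      simpa using this
    apply Finset.sum_eq_zero
    intro i _
    have hdet : Matrix.det (fun j : Fin n => u (i.succAbove j)) = 0 := by
      have := h0 i
      simp only [hcd] at this
      rcases mul_eq_zero.mp this with h | h
      · exact absurd h (pow_ne_zero _ (by norm_num))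
      · exact h
    unfold Eu.Df
    rw [hdet]
    simp

end MP8a95ee.Npc.CLOP
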