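import Pool.Agent.Work.MP_8a95ee_gt.Un.Stmts

/-!
# DBD: the number of bad vertices is bounded in terms of the dimension

The proof of `S_BD` (Bd/B09.lean, Npc/BD.lean) with the relevant walls only.
-/

set_option autoImplicit false

namespace MP8a95ee.Npc.DBDP

open Classical MP8a95ee.Npc

/-- the directions at `z` which separate `z` from some `v l` -/
noncomputable def Rel (X : SimpleGraph ℕ) {k : ℕ} (v : Fin (k + 1) → ℕ) (z : ℕ) : Finset ℕ :=
  Finset.univ.biUnion fun l => In X z (v l)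

theorem mem_Rel {X : SimpleGraph ℕ} {k : ℕ} {v : Fin (k + 1) → ℕ} {z a : ℕ} :
    a ∈ Rel X v z ↔ ∃ l, a ∈ In X z (v l) := by
  unfold Rel
  rw [Finset.mem_biUnion]
  constructor
  · rintro ⟨l, -, h⟩
    exact ⟨l, h⟩
  · rintro ⟨l, h⟩
    exact ⟨l, Finset.mem_univ _, h⟩

theorem adj_of_Rel {X : SimpleGraph ℕ} (hf : LocFin X) {k : ℕ} {v : Fin (k + 1) → ℕ} {z a : ℕ}
    (h : a ∈ Rel X v z) : X.Adj z a := by
  obtain ⟨l, hl⟩ := mem_Rel.1 h
  exact ((mem_In hf).1 hl).1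

/-- a homogeneous sequence, with the relevant directions only -/
structure HomR {X : SimpleGraph ℕ} (D : WS X) (N M k : ℕ) (v : Fin (k + 1) → ℕ) (x : Fin M → ℕ)
    (e : ℕ → Fin N → ℕ) : Prop where
  ne : ∀ p q, p ≠ q → x p ≠ x q
  nev : ∀ p l, x p ≠ v l
  bad : ∀ p, ¬ RA.InK fun l => In X (x p) (v l)
  enum : ∀ p a, a ∈ Rel X v (x p) → ∃ i, e (x p) i = a
  inj : ∀ p i j, e (x p) i ∈ Rel X v (x p) → e (x p) i = e (x p) j → i = j
  val : ∀ p q i, e (x p) i ∈ Rel X v (x p) → e (x q) i ∈ Rel X v (x q)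
  spl : ∀ p q i l, e (x p) i ∈ Rel X v (x p) → D.Sep (D.wall (x p) (e (x p) i)) (x p) (v l) →
    D.Sep (D.wall (x q) (e (x q) i)) (x q) (v l)
  up : ∀ p q p' q' i, p < q → p' < q' → e (x p) i ∈ Rel X v (x p) →
    D.Sep (D.wall (x p) (e (x p) i)) (x p) (x q) →
    D.Sep (D.wall (x p') (e (x p') i)) (x p') (x q')
  dn : ∀ p q p' q' i, p < q → p' < q' → e (x p) i ∈ Rel X v (x p) →
    D.Sep (D.wall (x q) (e (x q) i)) (x p) (x q) →
    D.Sep (D.wall (x q') (e (x q') i)) (x p') (x q')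
  eq : ∀ p q p' q' i, p < q → p' < q' → e (x p) i ∈ Rel X v (x p) →
    D.wall (x p) (e (x p) i) = D.wall (x q) (e (x q) i) →
    D.wall (x p') (e (x p') i) = D.wall (x q') (e (x q') i)
  cr : ∀ p q p' q' i, p < q → p' < q' → e (x p) i ∈ Rel X v (x p) →
    D.Cross (D.wall (x p) (e (x p) i)) (D.wall (x q) (e (x q) i)) →
    D.Cross (D.wall (x p') (e (x p') i)) (D.wall (x q') (e (x q') i))

section

variable {X : SimpleGraph ℕ} {D : WS X} {N M k d : ℕ} {v : Fin (k + 1) → ℕ} {x : Fin M → ℕ}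
  {e : ℕ → Fin N → ℕ}

/-- a wall between two vertices of the sequence is preceded by a relevant wall -/
theorem first (hX : IsMedianGraph X) (hf : LocFin X) (H : HomR D N M k v x e) (p q : Fin M)
    (h : D.H) (hs : D.Sep h (x p) (x q)) : ∃ i, e (x p) i ∈ Rel X v (x p) ∧
      ∀ z, D.Sep h (x p) z → D.Sep (D.wall (x p) (e (x p) i)) (x p) z := by
  have h2a := (allWA2 X hX D).1
  obtain ⟨l, hl⟩ : ∃ l, ¬ D.Sep h (x q) (v l) := by
    by_contra hcon
    push Not at hcon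
    obtain ⟨a, ha, hz⟩ := allWA1 X hX D h (x q) (x p) (D.Sep_comm.1 hs)
    refine H.bad q ⟨a, fun l => ?_⟩
    exact (HOM.In_iff hf D h2a).2 ⟨ha, hz _ (hcon l)⟩
  have hl' : D.Sep h (x p) (v l) := by
    unfold WS.Sep at *
    tauto
  obtain ⟨a, ha, hz⟩ := allWA1 X hX D h (x p) (x q) hs
  have hR : a ∈ Rel X v (x p) := mem_Rel.2 ⟨l, (HOM.In_iff hf D h2a).2 ⟨ha, hz _ hl'⟩⟩
  obtain ⟨i, rfl⟩ := H.enum p a hR
  exact ⟨i, hR, hz⟩

/-- in a long homogeneous sequence the walls with the same index do not cross -/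
theorem not_cross (hW : S_WAD) (hX : IsMedianGraph X) (hf : LocFin X)
    (hd : ∀ x, ∀ s ∈ link X x, s.card ≤ d) (hM : d + 3 ≤ M)
    (H : HomR D N M k v x e) {i : Fin N}
    (hi : ∀ p, e (x p) i ∈ Rel X v (x p)) {p q : Fin M} (hpq : p < q) :
    ¬ D.Cross (D.wall (x p) (e (x p) i)) (D.wall (x q) (e (x q) i)) := by
  intro hc
  have hlt : ∀ p' q' : Fin M, p' < q' →
      D.Cross (D.wall (x p') (e (x p') i)) (D.wall (x q') (e (x q') i)) := fun p' q' h =>
    H.cr p q p' q' i hpq h (hi p) hc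
  refine hW X hX hf D d hd (fun j => D.wall (x ⟨j.1, by omega⟩) (e (x ⟨j.1, by omega⟩) i)) ?_
  intro a b hab
  rcases lt_trichotomy a b with h | h | h
  · exact hlt _ _ (by simpa using h)
  · exact absurd h hab
  · exact HA.Cross_symm D (hlt _ _ (by simpa using h))

theorem ha (hW : S_WAD) (hX : IsMedianGraph X) (hf : LocFin X)
    (hd : ∀ x, ∀ s ∈ link X x, s.card ≤ d) (hM : d + 3 ≤ M)
    (H : HomR D N M k v x e) (i : Fin N) (hi : ∀ p, e (x p) i ∈ Rel X v (x p)) :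
    Up D x e i → ¬ Dn D x e i := by
  intro hU hD
  have l01 : (⟨0, by omega⟩ : Fin M) < ⟨1, by omega⟩ := by simp
  have l02 : (⟨0, by omega⟩ : Fin M) < ⟨2, by omega⟩ := by simp
  have l12 : (⟨1, by omega⟩ : Fin M) < ⟨2, by omega⟩ := by simp
  generalize (⟨0, by omega⟩ : Fin M) = a at *
  generalize (⟨1, by omega⟩ : Fin M) = b at *
  generalize (⟨2, by omega⟩ : Fin M) = c at *
  have hnc := not_cross hW hX hf hd hM H hi l01
  have u1 := hU a b l01
  have u2 := hU a c l02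
  have u3 := hU b c l12
  have d1 := hD a b l01
  have hadj := fun p => adj_of_Rel hf (hi p)
  have hl : ∃ l, ¬ D.Sep (D.wall (x a) (e (x a) i)) (x a) (v l) := by
    by_contra hcon
    push Not at hcon
    refine H.bad a ⟨e (x a) i, fun l => ?_⟩
    rw [mem_In hf]
    exact ⟨hadj a, ((allWA2 X hX D).1 (x a) (e (x a) i) (v l) (hadj a)).2 (hcon l)⟩
  obtain ⟨l, hl⟩ := hl
  have hl' : ¬ D.Sep (D.wall (x b) (e (x b) i)) (x b) (v l) := fun h =>
    hl (H.spl b a i l (hi b) h)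
  generalize D.wall (x a) (e (x a) i) = w0 at *
  generalize D.wall (x b) (e (x b) i) = w1 at *
  refine hnc ((D.Cross_iff (x c)).2 ⟨⟨x c, D.Sep_self, D.Sep_self⟩, ⟨x b, ?_, ?_⟩, ⟨x a, ?_, ?_⟩,
    v l, ?_, ?_⟩)
  all_goals
    unfold WS.Sep at *
    tauto

theorem hb (hW : S_WAD) (hX : IsMedianGraph X) (hf : LocFin X)
    (hd : ∀ x, ∀ s ∈ link X x, s.card ≤ d) (hM : d + 3 ≤ M)
    (H : HomR D N M k v x e) (i : Fin N) (hi : ∀ p, e (x p) i ∈ Rel X v (x p)) :
    ¬ Up D x e i → ¬ Dn D x e i → (∃ p l, D.Sep (D.wall (x p) (e (x p) i)) (x p) (v l)) →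
    ∀ p q, D.wall (x p) (e (x p) i) = D.wall (x q) (e (x q) i) := by
  intro hU hD hs p q
  have hadj := fun p => adj_of_Rel hf (hi p)
  have nu : ∀ p q, p < q → ¬ D.Sep (D.wall (x p) (e (x p) i)) (x p) (x q) := fun p q h hh =>
    hU fun p' q' h' => H.up p q p' q' i h h' (hi p) hh
  have nd : ∀ p q, p < q → ¬ D.Sep (D.wall (x q) (e (x q) i)) (x p) (x q) := fun p q h hh =>
    hD fun p' q' h' => H.dn p q p' q' i h h' (hi p) hh
  obtain ⟨p1, l, hs⟩ := hs
  have hl : ∀ q, D.Sep (D.wall (x q) (e (x q) i)) (x q) (v l) := fun q =>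
    H.spl p1 q i l (hi p1) hs
  have main : ∀ a b : Fin M, a < b →
      D.wall (x a) (e (x a) i) = D.wall (x b) (e (x b) i) := by
    intro a b hab
    by_contra hne
    have hnc := not_cross hW hX hf hd hM H hi hab
    have u := nu a b hab
    have d := nd a b hab
    have la := hl a
    have lb := hl b
    refine hnc ((D.Cross_iff (x a)).2 ⟨⟨x a, D.Sep_self, D.Sep_self⟩, ⟨e (x b) i, ?_, ?_⟩,
      ⟨e (x a) i, ?_, ?_⟩, v l, la, ?_⟩)
    · intro hh
      apply hne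
      apply (D.Sep_step (hadj b)).1
      unfold WS.Sep at *
      tauto
    · have := (D.Sep_step (hadj b) (h := D.wall (x b) (e (x b) i))).2 rfl
      unfold WS.Sep at *
      tauto
    · exact (D.Sep_step (hadj a)).2 rfl
    · intro hh
      exact hne ((D.Sep_step (hadj a)).1 hh).symm
    · unfold WS.Sep at *
      tauto
  rcases lt_trichotomy p q with h | h | h
  · exact main _ _ h
  · rw [h]
  · exact (main _ _ h).symm

theorem hc (hX : IsMedianGraph X) (hf : LocFin X) (H : HomR D N M k v x e) (i c : Fin N)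
    (hi : ∀ p, e (x p) i ∈ Rel X v (x p)) (hc : ∀ p, e (x p) c ∈ Rel X v (x p)) :
    ¬ Up D x e i → ¬ Dn D x e i → (∀ p q, D.wall (x p) (e (x p) i) = D.wall (x q) (e (x q) i)) →
    (Up D x e c ∨ Dn D x e c) → ∀ p0 p p1 : Fin M, p0 < p → p < p1 →
    Square X (x p) (e (x p) i) (e (x p) c) := by
  intro hU hD heq hor p0 p p1 h0 h1
  have hadj := fun p => adj_of_Rel hf (hi p)
  have hadjc := fun p => adj_of_Rel hf (hc p)
  have nu : ∀ p q, p < q → ¬ D.Sep (D.wall (x p) (e (x p) i)) (x p) (x q) := fun p q h hh =>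
    hU fun p' q' h' => H.up p q p' q' i h h' (hi p) hh
  have nic : e (x p) i ≠ e (x p) c := by
    intro h
    have hic := H.inj p i c (hi p) h
    subst hic
    rcases hor with h | h
    · exact hU h
    · exact hD h
  refine ((allWA3 X hX D (x p) (e (x p) i) (e (x p) c) (hadj p) (hadjc p) nic).2.1).2 ?_
  rcases hor with h | h
  · exact allWA5 X hX D (x p) (e (x p) i) (x p1) (e (x p1) i) _ (hadj p) (hadj p1) (heq p p1)
      (nu p p1 h1) (h p p1 h1)
  · have hn : ¬ D.Sep (D.wall (x p) (e (x p) i)) (x p) (x p0) := by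
      rw [heq p p0, D.Sep_comm]
      exact nu p0 p h0
    exact allWA5 X hX D (x p) (e (x p) i) (x p0) (e (x p0) i) _ (hadj p) (hadj p0) (heq p p0)
      hn (D.Sep_comm.1 (h p0 p h0))

theorem hd' (hX : IsMedianGraph X) (hf : LocFin X) (hM : 2 ≤ M) (hom : HomR D N M k v x e)
    (i : Fin N) (hi : ∀ p, e (x p) i ∈ Rel X v (x p)) :
    (Dn D x e i → ∃ j, (∀ p, e (x p) j ∈ Rel X v (x p)) ∧ Up D x e j ∧
      ∀ p l, D.Sep (D.wall (x p) (e (x p) j)) (x p) (v l) ∨
        D.Sep (D.wall (x p) (e (x p) i)) (x p) (v l)) ∧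
    (Up D x e i → ∃ j, (∀ p, e (x p) j ∈ Rel X v (x p)) ∧ Dn D x e j ∧
      ∀ p l, D.Sep (D.wall (x p) (e (x p) j)) (x p) (v l) ∨
        D.Sep (D.wall (x p) (e (x p) i)) (x p) (v l)) := by
  obtain ⟨o, ho⟩ : ∃ o : Fin M, o = ⟨0, by omega⟩ := ⟨_, rfl⟩
  obtain ⟨r, hr⟩ : ∃ r : Fin M, r = ⟨M - 1, by omega⟩ := ⟨_, rfl⟩
  have hor : o < r := by
    rw [ho, hr, Fin.mk_lt_mk]
    omega
  constructor
  · intro hD
    have h2 : D.Sep (D.wall (x r) (e (x r) i)) (x o) (x r) := hD o r hor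
    obtain ⟨j, ha, hz⟩ := first hX hf hom o r _ h2
    have hj : ∀ p, e (x p) j ∈ Rel X v (x p) := fun p => hom.val o p j ha
    refine ⟨j, hj, fun p q hpq => hom.up o r p q j hor hpq ha (hz _ h2), fun p l => ?_⟩
    by_cases h3 : D.Sep (D.wall (x p) (e (x p) i)) (x p) (v l)
    · exact Or.inr h3
    · left
      have h4 : ¬ D.Sep (D.wall (x r) (e (x r) i)) (x r) (v l) :=
        fun h => h3 (hom.spl r p i l (hi r) h)
      have h5 : D.Sep (D.wall (x r) (e (x r) i)) (x o) (v l) := by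
        rw [D.Sep_trans (y := x r)]
        intro h
        exact h4 (h.1 h2)
      exact hom.spl o p j l ha (hz _ h5)
  · intro hU
    have h2 : D.Sep (D.wall (x o) (e (x o) i)) (x r) (x o) := D.Sep_comm.1 (hU o r hor)
    obtain ⟨j, ha, hz⟩ := first hX hf hom r o _ h2
    have hj : ∀ p, e (x p) j ∈ Rel X v (x p) := fun p => hom.val r p j ha
    refine ⟨j, hj, fun p q hpq => hom.dn o r p q j hor hpq (hj o) (D.Sep_comm.1 (hz _ h2)),
      fun p l => ?_⟩
    by_cases h3 : D.Sep (D.wall (x p) (e (x p) i)) (x p) (v l)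
    · exact Or.inr h3
    · left
      have h4 : ¬ D.Sep (D.wall (x o) (e (x o) i)) (x o) (v l) :=
        fun h => h3 (hom.spl o p i l (hi o) h)
      have h5 : D.Sep (D.wall (x o) (e (x o) i)) (x r) (v l) := by
        rw [D.Sep_trans (y := x o)]
        intro h
        exact h4 (h.1 h2)
      exact hom.spl r p j l ha (hz _ h5)

theorem he (hX : IsMedianGraph X) (hf : LocFin X) (hM : 3 ≤ M) (H : HomR D N M k v x e) :
    (∃ i, (∀ p, e (x p) i ∈ Rel X v (x p)) ∧ Up D x e i) ∧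
    (∃ i, (∀ p, e (x p) i ∈ Rel X v (x p)) ∧ Dn D x e i) ∧
    ∀ p0 p p1 : Fin M, p0 < p → p < p1 →
      (Finset.univ.filter fun i => e (x p) i ∈ Rel X v (x p) ∧ Up D x e i).image (e (x p)) ∈
        link X (x p) ∧
      (Finset.univ.filter fun i => e (x p) i ∈ Rel X v (x p) ∧ Dn D x e i).image (e (x p)) ∈
        link X (x p) := by
  have l0r : (⟨0, by omega⟩ : Fin M) < ⟨1, by omega⟩ := by simp
  generalize (⟨0, by omega⟩ : Fin M) = a at *
  generalize (⟨1, by omega⟩ : Fin M) = b at *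
  have hne : x a ≠ x b := H.ne a b (ne_of_lt l0r)
  obtain ⟨h, hh⟩ : ∃ h, D.Sep h (x a) (x b) := by
    by_contra hcon
    push Not at hcon
    exact hne ((allWA2 X hX D).2.1 _ _ hcon)
  have h3 := allWA3 X hX D
  refine ⟨?_, ?_, ?_⟩
  · obtain ⟨i, hi, hz⟩ := first hX hf H a b h hh
    refine ⟨i, fun p => H.val a p i hi, fun p q hpq => ?_⟩
    exact H.up a b p q i l0r hpq hi (hz (x b) hh)
  · obtain ⟨i, hi, hz⟩ := first hX hf H b a h (D.Sep_comm.1 hh)
    refine ⟨i, fun p => H.val b p i hi, fun p q hpq => ?_⟩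
    exact H.dn a b p q i l0r hpq (H.val b a i hi)
      (D.Sep_comm.1 (hz (x a) (D.Sep_comm.1 hh)))
  · intro p0 p p1 hp0 hp1
    constructor
    · rw [mem_link]
      constructor
      · intro y hy
        simp only [Finset.mem_image, Finset.mem_filter, Finset.mem_univ, true_and] at hy
        obtain ⟨i, ⟨hi, hu⟩, rfl⟩ := hy
        exact (mem_nbr hf).2 (adj_of_Rel hf hi)
      · intro y hy z hz hyz
        simp only [Finset.mem_image, Finset.mem_filter, Finset.mem_univ, true_and] at hy hz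
        obtain ⟨i, ⟨hi, hu⟩, rfl⟩ := hy
        obtain ⟨j, ⟨hj, hv⟩, rfl⟩ := hz
        exact ((h3 (x p) _ _ (adj_of_Rel hf hi) (adj_of_Rel hf hj) hyz).1).2
          ⟨x p1, hu p p1 hp1, hv p p1 hp1⟩
    · rw [mem_link]
      constructor
      · intro y hy
        simp only [Finset.mem_image, Finset.mem_filter, Finset.mem_univ, true_and] at hy
        obtain ⟨i, ⟨hi, hu⟩, rfl⟩ := hy
        exact (mem_nbr hf).2 (adj_of_Rel hf hi)
      · intro y hy z hz hyz
        simp only [Finset.mem_image, Finset.mem_filter, Finset.mem_univ, true_and] at hy hz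
        obtain ⟨i, ⟨hi, hu⟩, rfl⟩ := hy
        obtain ⟨j, ⟨hj, hv⟩, rfl⟩ := hz
        exact ((h3 (x p) _ _ (adj_of_Rel hf hi) (adj_of_Rel hf hj) hyz).1).2
          ⟨x p0, D.Sep_comm.1 (hu p0 p hp0), D.Sep_comm.1 (hv p0 p hp0)⟩

theorem hom_KF (hW : S_WAD) (hX : IsMedianGraph X) (hf : LocFin X)
    (hdd : ∀ x, ∀ s ∈ link X x, s.card ≤ d) (hM : d + 3 ≤ M)
    (H : HomR D N M k v x e) : ∃ p, KF (link X (x p)) fun l => In X (x p) (v l) := by
  have h2a := (allWA2 X hX D).1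
  have h2b := (allWA2 X hX D).2.1
  have h3a : ∀ x a b, X.Adj x a → X.Adj x b → a ≠ b →
      (Square X x a b ↔ ∃ v, D.Sep (D.wall x a) x v ∧ D.Sep (D.wall x b) x v) :=
    fun x a b ha hb hab => (allWA3 X hX D x a b ha hb hab).1
  have hface : ∀ p l, In X (x p) (v l) ∈ link X (x p) ∧ (In X (x p) (v l)).Nonempty := by
    intro p l
    refine ⟨HOM.In_face hf D h2a h3a _ _, ?_⟩
    have hex : ∃ h, D.Sep h (x p) (v l) := by
      by_contra hno
      exact H.nev p l (h2b _ _ fun h hh => hno ⟨h, hh⟩)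
    obtain ⟨h, hh⟩ := hex
    obtain ⟨a, ha1, ha2⟩ := allWA1 X hX D h (x p) (v l) hh
    exact ⟨a, (HOM.In_iff hf D h2a).2 ⟨ha1, ha2 _ hh⟩⟩
  have hM3 : 3 ≤ M := by omega
  obtain ⟨⟨iu, hiu1, hiu2⟩, ⟨id, hid1, hid2⟩, hfc⟩ := he hX hf hM3 H
  obtain ⟨p0, p, p1, hp0, hp1⟩ : ∃ p0 p p1 : Fin M, p0 < p ∧ p < p1 :=
    ⟨⟨0, by omega⟩, ⟨1, by omega⟩, ⟨2, by omega⟩, by rw [Fin.lt_def]; exact Nat.zero_lt_one,
      by rw [Fin.lt_def]; exact Nat.one_lt_two⟩
  obtain ⟨hPf, hQf⟩ := hfc p0 p p1 hp0 hp1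
  have hval : ∀ i, e (x p) i ∈ Rel X v (x p) → ∀ q, e (x q) i ∈ Rel X v (x q) :=
    fun i hi q => H.val p q i hi
  refine ⟨p, hface p, Or.inr ⟨(_, _), ⟨hPf, hQf, ?_, ?_, ?_⟩, ?_, ?_, ?_⟩⟩
  · exact ⟨e (x p) iu, Finset.mem_image.2 ⟨iu, Finset.mem_filter.2
      ⟨Finset.mem_univ _, hiu1 p, hiu2⟩, rfl⟩⟩
  · exact ⟨e (x p) id, Finset.mem_image.2 ⟨id, Finset.mem_filter.2
      ⟨Finset.mem_univ _, hid1 p, hid2⟩, rfl⟩⟩
  · rw [Finset.disjoint_left]
    intro a ha' hb'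
    obtain ⟨i, hi, rfl⟩ := Finset.mem_image.1 ha'
    obtain ⟨j, hj, hji⟩ := Finset.mem_image.1 hb'
    rw [Finset.mem_filter] at hi hj
    have hij : i = j := H.inj p i j hi.2.1 hji.symm
    subst hij
    exact ha hW hX hf hdd hM H i (hval i hi.2.1) hi.2.2 hj.2.2
  · intro l t ht htn c hc'
    rw [Finset.mem_union, not_or] at htn
    obtain ⟨ht1, ht2⟩ := (HOM.In_iff hf D h2a).1 ht
    have htR : t ∈ Rel X v (x p) := mem_Rel.2 ⟨l, ht⟩
    obtain ⟨i, rfl⟩ := H.enum p t htR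
    have hnu : ¬ Up D x e i := fun hu => htn.1 (Finset.mem_image.2 ⟨i, Finset.mem_filter.2
      ⟨Finset.mem_univ _, htR, hu⟩, rfl⟩)
    have hnd : ¬ Dn D x e i := fun hd => htn.2 (Finset.mem_image.2 ⟨i, Finset.mem_filter.2
      ⟨Finset.mem_univ _, htR, hd⟩, rfl⟩)
    have hconst := hb hW hX hf hdd hM H i (hval i htR) hnu hnd ⟨p, l, ht2⟩
    obtain ⟨j, rfl, hj1, hj2⟩ : ∃ j, e (x p) j = c ∧ e (x p) j ∈ Rel X v (x p) ∧
        (Up D x e j ∨ Dn D x e j) := by
      rw [Finset.mem_union] at hc'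
      rcases hc' with hc' | hc'
      · obtain ⟨j, hj, rfl⟩ := Finset.mem_image.1 hc'
        rw [Finset.mem_filter] at hj
        exact ⟨j, rfl, hj.2.1, Or.inl hj.2.2⟩
      · obtain ⟨j, hj, rfl⟩ := Finset.mem_image.1 hc'
        rw [Finset.mem_filter] at hj
        exact ⟨j, rfl, hj.2.1, Or.inr hj.2.2⟩
    have hsq := hc hX hf H i j (hval i htR) (hval j hj1) hnu hnd hconst hj2 p0 p p1 hp0 hp1
    refine HOM.adj_link hf ht1 (adj_of_Rel hf hj1) ?_ hsq
    intro heq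
    have hij : i = j := H.inj p i j htR heq
    subst hij
    rcases hj2 with hj2 | hj2
    · exact hnu hj2
    · exact hnd hj2
  · intro q hq
    obtain ⟨i, hi, rfl⟩ := Finset.mem_image.1 hq
    rw [Finset.mem_filter] at hi
    obtain ⟨j, hj1, hj2, hj3⟩ := (hd' hX hf (by omega) H i (hval i hi.2.1)).1 hi.2.2
    refine ⟨e (x p) j, Finset.mem_image.2 ⟨j, Finset.mem_filter.2
      ⟨Finset.mem_univ _, hj1 p, hj2⟩, rfl⟩, ?_⟩
    intro l
    rcases hj3 p l with h | h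
    · exact Or.inl ((HOM.In_iff hf D h2a).2 ⟨adj_of_Rel hf (hj1 p), h⟩)
    · exact Or.inr ((HOM.In_iff hf D h2a).2 ⟨adj_of_Rel hf hi.2.1, h⟩)
  · intro q hq
    obtain ⟨i, hi, rfl⟩ := Finset.mem_image.1 hq
    rw [Finset.mem_filter] at hi
    obtain ⟨j, hj1, hj2, hj3⟩ := (hd' hX hf (by omega) H i (hval i hi.2.1)).2 hi.2.2
    refine ⟨e (x p) j, Finset.mem_image.2 ⟨j, Finset.mem_filter.2
      ⟨Finset.mem_univ _, hj1 p, hj2⟩, rfl⟩, ?_⟩
    intro l
    rcases hj3 p l with h | h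
    · exact Or.inr ((HOM.In_iff hf D h2a).2 ⟨adj_of_Rel hf (hj1 p), h⟩)
    · exact Or.inl ((HOM.In_iff hf D h2a).2 ⟨adj_of_Rel hf hi.2.1, h⟩)

end

theorem card_Rel {X : SimpleGraph ℕ} (hX : IsMedianGraph X) (hf : LocFin X) (D : WS X) {d k : ℕ}
    (hd : ∀ x, ∀ s ∈ link X x, s.card ≤ d) (v : Fin (k + 1) → ℕ) (z : ℕ) :
    (Rel X v z).card ≤ (k + 1) * d := by
  have h2a := (allWA2 X hX D).1
  have h3a : ∀ x a b, X.Adj x a → X.Adj x b → a ≠ b →
      (Square X x a b ↔ ∃ v, D.Sep (D.wall x a) x v ∧ D.Sep (D.wall x b) x v) :=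
    fun x a b ha hb hab => (allWA3 X hX D x a b ha hb hab).1
  unfold Rel
  refine Finset.card_biUnion_le.trans ?_
  refine (Finset.sum_le_card_nsmul _ _ d fun l _ => hd z _ (HOM.In_face hf D h2a h3a _ _)).trans ?_
  rw [Finset.card_univ, Fintype.card_fin, smul_eq_mul]

theorem enumeration {X : SimpleGraph ℕ} (hf : LocFin X) {N k : ℕ} (v : Fin (k + 1) → ℕ)
    (hN : ∀ z, (Rel X v z).card ≤ N) : ∃ e : ℕ → Fin N → ℕ,
      (∀ z a, a ∈ Rel X v z → ∃ i, e z i = a) ∧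
      ∀ z i j, e z i ∈ Rel X v z → e z i = e z j → i = j := by
  have hz : ∀ z, z ∉ Rel X v z := fun z h => X.loopless.irrefl z (adj_of_Rel hf h)
  have h : ∀ z, ∃ e : Fin N → ℕ, (∀ a, a ∈ Rel X v z → ∃ i, e i = a) ∧
      ∀ i j, e i ∈ Rel X v z → e i = e j → i = j := by
    intro z
    have hcard : Fintype.card (Rel X v z) ≤ Fintype.card (Fin N) := by
      rw [Fintype.card_coe, Fintype.card_fin]; exact hN z
    obtain ⟨em⟩ := Function.Embedding.nonempty_of_card_le hcard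
    refine ⟨fun i => if h : ∃ a : Rel X v z, em a = i then (h.choose : ℕ) else z, ?_, ?_⟩
    · intro a ha
      refine ⟨em ⟨a, ha⟩, ?_⟩
      have h : ∃ b : Rel X v z, em b = em ⟨a, ha⟩ := ⟨_, rfl⟩
      simp only
      rw [dif_pos h, em.injective h.choose_spec]
    · intro i j hi hij
      simp only at hi hij
      by_cases h : ∃ a : Rel X v z, em a = i
      · by_cases h' : ∃ a : Rel X v z, em a = j
        · rw [dif_pos h, dif_pos h'] at hij
          have := Subtype.ext hij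
          rw [← h.choose_spec, ← h'.choose_spec, this]
        · rw [hij, dif_neg h'] at hi
          exact absurd hi (hz z)
      · rw [dif_neg h] at hi
        exact absurd hi (hz z)
  choose e he using h
  exact ⟨e, fun z => (he z).1, fun z => (he z).2⟩

/-- the colour of a pair of vertices -/
def col {X : SimpleGraph ℕ} (D : WS X) {N k : ℕ} (e : ℕ → Fin N → ℕ) (v : Fin (k + 1) → ℕ)
    (y z : ℕ) : BD.Col N k := fun i =>
  (e y i ∈ Rel X v y, e z i ∈ Rel X v z, fun l => D.Sep (D.wall y (e y i)) y (v l),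
    fun l => D.Sep (D.wall z (e z i)) z (v l), D.Sep (D.wall y (e y i)) y z,
    D.Sep (D.wall z (e z i)) y z, D.wall y (e y i) = D.wall z (e z i),
    D.Cross (D.wall y (e y i)) (D.wall z (e z i)))

theorem hom {X : SimpleGraph ℕ} (D : WS X) {N k M : ℕ} (hM : 3 ≤ M) {e : ℕ → Fin N → ℕ}
    {v : Fin (k + 1) → ℕ}
    (he1 : ∀ z a, a ∈ Rel X v z → ∃ i, e z i = a)
    (he2 : ∀ z i j, e z i ∈ Rel X v z → e z i = e z j → i = j)
    {x : Fin M → ℕ} (hx : Function.Injective x)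
    (hxv : ∀ p l, x p ≠ v l) (hbad : ∀ p, ¬ RA.InK fun l => In X (x p) (v l))
    (hc : ∀ p q p' q', p < q → p' < q' → col D e v (x p) (x q) = col D e v (x p') (x q')) :
    HomR D N M k v x e := by
  have hc' : ∀ p q p' q', p < q → p' < q' → ∀ i,
      col D e v (x p) (x q) i = col D e v (x p') (x q') i := by
    intro p q p' q' h h' i
    rw [hc p q p' q' h h']
  have c1 : ∀ p q p' q', p < q → p' < q' → ∀ i,
      (e (x p) i ∈ Rel X v (x p)) = (e (x p') i ∈ Rel X v (x p')) := fun p q p' q' h h' i =>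
    congrArg (fun t => t.1) (hc' p q p' q' h h' i)
  have c2 : ∀ p q p' q', p < q → p' < q' → ∀ i,
      (e (x q) i ∈ Rel X v (x q)) = (e (x q') i ∈ Rel X v (x q')) := fun p q p' q' h h' i =>
    congrArg (fun t => t.2.1) (hc' p q p' q' h h' i)
  have c3 : ∀ p q p' q', p < q → p' < q' → ∀ i,
      (fun l => D.Sep (D.wall (x p) (e (x p) i)) (x p) (v l)) =
        fun l => D.Sep (D.wall (x p') (e (x p') i)) (x p') (v l) := fun p q p' q' h h' i =>
    congrArg (fun t => t.2.2.1) (hc' p q p' q' h h' i)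
  have c4 : ∀ p q p' q', p < q → p' < q' → ∀ i,
      (fun l => D.Sep (D.wall (x q) (e (x q) i)) (x q) (v l)) =
        fun l => D.Sep (D.wall (x q') (e (x q') i)) (x q') (v l) := fun p q p' q' h h' i =>
    congrArg (fun t => t.2.2.2.1) (hc' p q p' q' h h' i)
  have c5 : ∀ p q p' q', p < q → p' < q' → ∀ i,
      D.Sep (D.wall (x p) (e (x p) i)) (x p) (x q) =
        D.Sep (D.wall (x p') (e (x p') i)) (x p') (x q') := fun p q p' q' h h' i =>
    congrArg (fun t => t.2.2.2.2.1) (hc' p q p' q' h h' i)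
  have c6 : ∀ p q p' q', p < q → p' < q' → ∀ i,
      D.Sep (D.wall (x q) (e (x q) i)) (x p) (x q) =
        D.Sep (D.wall (x q') (e (x q') i)) (x p') (x q') := fun p q p' q' h h' i =>
    congrArg (fun t => t.2.2.2.2.2.1) (hc' p q p' q' h h' i)
  have c7 : ∀ p q p' q', p < q → p' < q' → ∀ i,
      (D.wall (x p) (e (x p) i) = D.wall (x q) (e (x q) i)) =
        (D.wall (x p') (e (x p') i) = D.wall (x q') (e (x q') i)) := fun p q p' q' h h' i =>
    congrArg (fun t => t.2.2.2.2.2.2.1) (hc' p q p' q' h h' i)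
  have c8 : ∀ p q p' q', p < q → p' < q' → ∀ i,
      D.Cross (D.wall (x p) (e (x p) i)) (D.wall (x q) (e (x q) i)) =
        D.Cross (D.wall (x p') (e (x p') i)) (D.wall (x q') (e (x q') i)) :=
    fun p q p' q' h h' i => congrArg (fun t => t.2.2.2.2.2.2.2) (hc' p q p' q' h h' i)
  have u1 : ∀ i p q, (e (x p) i ∈ Rel X v (x p)) = (e (x q) i ∈ Rel X v (x q)) := fun i =>
    BD.unary hM (fun p => e (x p) i ∈ Rel X v (x p)) fun p q p' q' h h' =>
      ⟨c1 p q p' q' h h' i, c2 p q p' q' h h' i⟩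
  have u2 : ∀ i p q, (fun l => D.Sep (D.wall (x p) (e (x p) i)) (x p) (v l)) =
      fun l => D.Sep (D.wall (x q) (e (x q) i)) (x q) (v l) := fun i =>
    BD.unary hM (fun p => fun l => D.Sep (D.wall (x p) (e (x p) i)) (x p) (v l))
      fun p q p' q' h h' => ⟨c3 p q p' q' h h' i, c4 p q p' q' h h' i⟩
  exact
    { ne := fun p q hpq h => hpq (hx h)
      nev := hxv
      bad := hbad
      enum := fun p a ha => he1 (x p) a ha
      inj := fun p i j hi hij => he2 (x p) i j hi hij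
      val := fun p q i h => (u1 i p q) ▸ h
      spl := fun p q i l _ h => (congrFun (u2 i p q) l) ▸ h
      up := fun p q p' q' i h h' _ hs => (c5 p q p' q' h h' i) ▸ hs
      dn := fun p q p' q' i h h' _ hs => (c6 p q p' q' h h' i) ▸ hs
      eq := fun p q p' q' i h h' _ hs => (c7 p q p' q' h h' i).mp hs
      cr := fun p q p' q' i h h' _ hs => (c8 p q p' q' h h' i).mp hs }

/-- DBD -/
theorem prf (hW : S_WAD) : S_DBD := by
  intro d k
  obtain ⟨N, hN⟩ : ∃ N, N = (k + 1) * d := ⟨_, rfl⟩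
  obtain ⟨R, hR⟩ := allRAM (Fintype.card (BD.Col N k)) (d + 3)
  refine ⟨R + (k + 1), fun X hX hf hd v Z hZ => ?_⟩
  obtain ⟨D⟩ := allMG5 X hX
  obtain ⟨e, he1, he2⟩ := enumeration hf v (N := N) fun z => by
    rw [hN]
    exact card_Rel hX hf D hd v z
  have h2a := (allWA2 X hX D).1
  have h2b := (allWA2 X hX D).2.1
  have h3a : ∀ x a b, X.Adj x a → X.Adj x b → a ≠ b →
      (Square X x a b ↔ ∃ v, D.Sep (D.wall x a) x v ∧ D.Sep (D.wall x b) x v) :=
    fun x a b ha hb hab => (allWA3 X hX D x a b ha hb hab).1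
  by_contra hB
  push Not at hB
  have hcard : R ≤ (Z \ Finset.univ.image v).card := by
    have e1 := Finset.le_card_sdiff (Finset.univ.image v) Z
    have e2 : (Finset.univ.image v).card ≤ k + 1 := by
      refine Finset.card_image_le.trans ?_
      rw [Finset.card_univ, Fintype.card_fin]
    omega
  obtain ⟨g, hg, hh⟩ := hR fun a b => Fintype.equivFin (BD.Col N k)
    (col D e v ((Z \ Finset.univ.image v).orderEmbOfCardLe hcard a)
      ((Z \ Finset.univ.image v).orderEmbOfCardLe hcard b))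
  have hmem : ∀ p, (Z \ Finset.univ.image v).orderEmbOfCardLe hcard p ∈
      Z \ Finset.univ.image v := fun p => Finset.orderEmbOfCardLe_mem _ hcard p
  have hnev : ∀ p l, (Z \ Finset.univ.image v).orderEmbOfCardLe hcard (g p) ≠ v l := by
    intro p l h
    have := hmem (g p)
    rw [Finset.mem_sdiff] at this
    exact this.2 (Finset.mem_image.2 ⟨l, Finset.mem_univ _, h.symm⟩)
  have hnotK : ∀ p, ¬ RA.InK fun l =>
      In X ((Z \ Finset.univ.image v).orderEmbOfCardLe hcard (g p)) (v l) := by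
    intro p hK
    have := hmem (g p)
    rw [Finset.mem_sdiff] at this
    refine hZ _ this.1 ⟨fun l => ⟨HOM.In_face hf D h2a h3a _ _, ?_⟩, Or.inl hK⟩
    obtain ⟨a, ha⟩ := hK
    exact ⟨a, ha l⟩
  have hom' := hom D (M := d + 3) (by omega) he1 he2
    (x := fun p => (Z \ Finset.univ.image v).orderEmbOfCardLe hcard (g p))
    (fun p q h => hg.injective (((Z \ Finset.univ.image v).orderEmbOfCardLe hcard).injective h))
    hnev hnotK
    (fun p q p' q' h h' => (Fintype.equivFin (BD.Col N k)).injective (hh p q p' q' h h'))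
  obtain ⟨p, hp⟩ := hom_KF hW hX hf hd le_rfl hom'
  have := hmem (g p)
  rw [Finset.mem_sdiff] at this
  exact hZ _ this.1 hp

end MP8a95ee.Npc.DBDP
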