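import Pool.Agent.Work.MP_8a95ee_gt.Un.Stmts

/-!
# The degree functional of a fan
-/

set_option autoImplicit false

namespace MP8a95ee.Npc.DGJP

open Classical

/-- exchange of the two sums -/
theorem exch (V : Finset ℕ) (G : Finset ℕ → ℕ → ℝ) :
    ∑ σ ∈ V.powerset, ∑ a ∈ V \ σ, G σ a = ∑ σ ∈ V.powerset, ∑ a ∈ σ, G (σ.erase a) a := by
  rw [Finset.sum_sigma', Finset.sum_sigma']
  refine Finset.sum_bij' (fun x _ => ⟨insert x.2 x.1, x.2⟩) (fun x _ => ⟨x.1.erase x.2, x.2⟩)
    ?_ ?_ ?_ ?_ ?_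
  · rintro ⟨σ, a⟩ h
    simp only [Finset.mem_sigma, Finset.mem_powerset, Finset.mem_sdiff] at h ⊢
    exact ⟨Finset.insert_subset h.2.1 h.1, Finset.mem_insert_self _ _⟩
  · rintro ⟨σ, a⟩ h
    simp only [Finset.mem_sigma, Finset.mem_powerset, Finset.mem_sdiff] at h ⊢
    exact ⟨(Finset.erase_subset _ _).trans h.1, h.1 h.2, Finset.notMem_erase _ _⟩
  · rintro ⟨σ, a⟩ h
    simp only [Finset.mem_sigma, Finset.mem_powerset, Finset.mem_sdiff] at h
    simp only [Finset.erase_insert h.2.2]
  · rintro ⟨σ, a⟩ h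
    simp only [Finset.mem_sigma, Finset.mem_powerset] at h
    simp only [Finset.insert_erase h.2]
  · rintro ⟨σ, a⟩ h
    simp only [Finset.mem_sigma, Finset.mem_powerset, Finset.mem_sdiff] at h
    simp only [Finset.erase_insert h.2.2]

/-- the functional of a boundary -/
theorem jf_dJ (V : Finset ℕ) (φ : Finset ℕ → Finset ℕ → ℝ) (y : JC) :
    jf V φ (dJ V y) = ∑ σ ∈ V.powerset, ∑ τ ∈ V.powerset, y σ τ *
      (∑ a ∈ σ, RA.sg a (σ.erase a) * φ (σ.erase a) τ +
        ∑ a ∈ τ, (-1) ^ σ.card * RA.sg a (τ.erase a) * φ σ (τ.erase a)) := by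
  have h1 : jf V φ (dJ V y) = ∑ τ ∈ V.powerset, ∑ σ ∈ V.powerset, ∑ a ∈ V \ σ,
      RA.sg a σ * y (insert a σ) τ * φ σ τ + ∑ σ ∈ V.powerset, ∑ τ ∈ V.powerset, ∑ a ∈ V \ τ,
      (-1) ^ σ.card * RA.sg a τ * y σ (insert a τ) * φ σ τ := by
    rw [Finset.sum_comm, ← Finset.sum_add_distrib]
    refine Finset.sum_congr rfl fun σ _ => ?_
    rw [← Finset.sum_add_distrib]
    refine Finset.sum_congr rfl fun τ _ => ?_
    simp only [dJ, add_mul, Finset.sum_mul]
  rw [h1]
  have h2 : ∀ τ, ∑ σ ∈ V.powerset, ∑ a ∈ V \ σ, RA.sg a σ * y (insert a σ) τ * φ σ τ =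
      ∑ σ ∈ V.powerset, ∑ a ∈ σ, y σ τ * (RA.sg a (σ.erase a) * φ (σ.erase a) τ) := by
    intro τ
    rw [exch V fun σ a => RA.sg a σ * y (insert a σ) τ * φ σ τ]
    refine Finset.sum_congr rfl fun σ _ => Finset.sum_congr rfl fun a ha => ?_
    simp only [Finset.insert_erase ha]
    ring
  have h3 : ∀ σ : Finset ℕ, ∑ τ ∈ V.powerset, ∑ a ∈ V \ τ,
      (-1) ^ σ.card * RA.sg a τ * y σ (insert a τ) * φ σ τ =
      ∑ τ ∈ V.powerset, ∑ a ∈ τ, y σ τ *
        ((-1) ^ σ.card * RA.sg a (τ.erase a) * φ σ (τ.erase a)) := by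
    intro σ
    rw [exch V fun τ a => (-1) ^ σ.card * RA.sg a τ * y σ (insert a τ) * φ σ τ]
    refine Finset.sum_congr rfl fun τ _ => Finset.sum_congr rfl fun a ha => ?_
    simp only [Finset.insert_erase ha]
    ring
  simp only [h2, h3]
  rw [Finset.sum_comm, ← Finset.sum_add_distrib]
  refine Finset.sum_congr rfl fun σ _ => ?_
  rw [← Finset.sum_add_distrib]
  refine Finset.sum_congr rfl fun τ _ => ?_
  rw [mul_add, Finset.mul_sum, Finset.mul_sum]

/-- the weight is a sign or zero -/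
theorem abs_dg {n : ℕ} (P : ℕ → Fin n → ℝ) (w : Fin n → ℝ) (σ τ : Finset ℕ) :
    |dg P w σ τ| ≤ 1 := by
  unfold dg Eu.Df
  split_ifs
  · rcases lt_trichotomy (Matrix.det (cv P σ τ n)) 0 with h | h | h
    · rw [sign_neg h]
      simp
    · rw [h]
      simp
    · rw [sign_pos h]
      simp
  · simp
  · simp

/-- the vectors of a cell in the first copy -/
theorem cv_empty {n : ℕ} (P : ℕ → Fin n → ℝ) (σ : Finset ℕ) (h : σ.card = n) (i : Fin n) :
    cv P σ ∅ n i = P (σ.orderEmbOfFin h i) := by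
  unfold cv
  have h1 : (i : ℕ) < (σ.sort (· ≤ ·)).length := by
    rw [Finset.length_sort, h]
    exact i.2
  rw [Finset.sort_empty, List.map_nil, List.append_nil, List.getD_eq_getElem?_getD,
    List.getElem?_map, List.getElem?_eq_getElem h1, Finset.orderEmbOfFin_apply]
  rfl

/-- sums over a set as sums over its enumeration -/
theorem sum_emb {M : Type} [AddCommMonoid M] {n : ℕ} (σ : Finset ℕ) (h : σ.card = n)
    (f : ℕ → M) : ∑ i : Fin n, f (σ.orderEmbOfFin h i) = ∑ v ∈ σ, f v := by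
  have h1 : σ = Finset.univ.image (σ.orderEmbOfFin h) := by
    ext a
    rw [Finset.mem_image]
    constructor
    · intro ha
      have h4 : a ∈ Set.range (σ.orderEmbOfFin h) := by
        rw [Finset.range_orderEmbOfFin]
        exact ha
      obtain ⟨i, hi⟩ := h4
      exact ⟨i, Finset.mem_univ _, hi⟩
    · rintro ⟨i, -, rfl⟩
      exact Finset.orderEmbOfFin_mem σ h i
  conv_rhs => rw [h1]
  rw [Finset.sum_image fun a _ b _ hab => (σ.orderEmbOfFin h).injective hab]

/-- the rows of the matrix as a linear map -/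
theorem tr_mulVec {n : ℕ} (t : Matrix (Fin n) (Fin n) ℝ) (c : Fin n → ℝ) :
    Matrix.mulVec (Matrix.transpose t) c = ∑ i, c i • t i := by
  funext j
  simp [Matrix.mulVec, dotProduct, Matrix.transpose, mul_comm]

/-- the determinants of a combination -/
theorem det_comb0 {n : ℕ} (t : Matrix (Fin n) (Fin n) ℝ) (c : Fin n → ℝ) (i : Fin n) :
    Matrix.det (Matrix.updateRow t i (∑ j, c j • t j)) = c i * Matrix.det t := by
  rw [← Matrix.cramer_transpose_apply, ← tr_mulVec, Matrix.cramer_eq_adjugate_mulVec,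
    Matrix.mulVec_mulVec, Matrix.adjugate_mul, Matrix.smul_mulVec, Matrix.one_mulVec,
    Matrix.det_transpose, Pi.smul_apply, smul_eq_mul, mul_comm]

/-- the determinants of a combination -/
theorem det_comb {n : ℕ} (t : Fin n → Fin n → ℝ) (c : Fin n → ℝ) (i : Fin n) :
    Matrix.det (Matrix.updateRow t i (∑ j, c j • t j)) = c i * Matrix.det t :=
  det_comb0 t c i

/-- Cramer -/
theorem cramer_comb0 {n : ℕ} (t : Matrix (Fin n) (Fin n) ℝ) (w : Fin n → ℝ) :
    Matrix.det t • w = ∑ i, Matrix.det (Matrix.updateRow t i w) • t i := by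
  have h := Matrix.mulVec_cramer (Matrix.transpose t) w
  rw [tr_mulVec, Matrix.det_transpose] at h
  rw [← h]
  refine Finset.sum_congr rfl fun i _ => ?_
  rw [Matrix.cramer_transpose_apply]

/-- Cramer -/
theorem cramer_comb {n : ℕ} (t : Fin n → Fin n → ℝ) (w : Fin n → ℝ) :
    Matrix.det t • w = ∑ i, Matrix.det (Matrix.updateRow t i w) • t i :=
  cramer_comb0 t w

/-- a cell with nonzero weight contains `w` in its open cone -/
theorem dg_ne {n : ℕ} (P : ℕ → Fin n → ℝ) (w : Fin n → ℝ) (σ : Finset ℕ) (hn : σ.card = n)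
    (h : dg P w σ ∅ ≠ 0) : ∃ b : ℕ → ℝ, (∀ v ∈ σ, 0 < b v) ∧ w = ∑ v ∈ σ, b v • P v := by
  unfold dg Eu.Df at h
  rw [if_pos (by simpa using hn)] at h
  split_ifs at h with hp
  · set t : Fin n → Fin n → ℝ := cv P σ ∅ n with ht
    have hd : Matrix.det t ≠ 0 := by
      intro h0
      rw [h0] at h
      simp at h
    have h1 := cramer_comb t w
    have h2 : w = ∑ i, (Matrix.det (Matrix.updateRow t i w) / Matrix.det t) • t i := by
      have h3 : w = (Matrix.det t)⁻¹ • (Matrix.det t • w) := by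
        rw [smul_smul, inv_mul_cancel₀ hd, one_smul]
      rw [h1, Finset.smul_sum] at h3
      rw [h3]
      refine Finset.sum_congr rfl fun i _ => ?_
      rw [smul_smul, ← h3]
      congr 1
      field_simp
    set e := σ.orderEmbOfFin hn with he
    have hex : ∀ v ∈ σ, ∃ i, e i = v := by
      intro v hv
      have h4 : v ∈ Set.range e := by
        rw [he, Finset.range_orderEmbOfFin]
        exact hv
      exact h4
    have hex2 : ∀ v : ℕ, ∃ b : ℝ, ∀ i, e i = v →
        b = Matrix.det (Matrix.updateRow t i w) / Matrix.det t := by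
      intro v
      by_cases hv : ∃ i, e i = v
      · obtain ⟨i, hi⟩ := hv
        refine ⟨Matrix.det (Matrix.updateRow t i w) / Matrix.det t, fun j hj => ?_⟩
        have : j = i := e.injective (hj.trans hi.symm)
        rw [this]
      · exact ⟨0, fun i hi => absurd ⟨i, hi⟩ hv⟩
    choose b hb using hex2
    refine ⟨b, ?_, ?_⟩
    · intro v hv
      obtain ⟨i, hi⟩ := hex v hv
      rw [hb v i hi]
      have h5 := hp i
      have h6 : Matrix.det (Matrix.updateRow t i w) / Matrix.det t =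
          (Matrix.det t * Matrix.det (Matrix.updateRow t i w)) / (Matrix.det t) ^ 2 := by
        field_simp
      rw [h6]
      exact div_pos h5 (by positivity)
    · rw [← sum_emb σ hn fun v => b v • P v]
      conv_lhs => rw [h2]
      refine Finset.sum_congr rfl fun i _ => ?_
      rw [hb (σ.orderEmbOfFin hn i) i rfl, ht, cv_empty P σ hn]
  · exact absurd rfl h

/-- the weight of the cell which contains `w` in its open cone -/
theorem dg_eq {n : ℕ} (P : ℕ → Fin n → ℝ) (w : Fin n → ℝ) (V σ : Finset ℕ) (hn : σ.card = n)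
    (hV : σ ⊆ V) (hg : GenW V P w) (a : ℕ → ℝ) (ha : ∀ v ∈ σ, 0 < a v)
    (hw : w = ∑ v ∈ σ, a v • P v) : |dg P w σ ∅| = 1 := by
  set t : Fin n → Fin n → ℝ := cv P σ ∅ n with ht
  set e := σ.orderEmbOfFin hn with he
  have hte : ∀ i, t i = P (e i) := fun i => cv_empty P σ hn i
  have hw2 : w = ∑ i, a (e i) • t i := by
    rw [hw, ← sum_emb σ hn fun v => a v • P v]
    refine Finset.sum_congr rfl fun i _ => ?_
    rw [hte]
  have hd : Matrix.det t ≠ 0 := by
    intro h0
    obtain ⟨c, hc0, hc⟩ := Matrix.exists_vecMul_eq_zero_iff.2 h0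
    obtain ⟨j, hj⟩ : ∃ j, c j ≠ 0 := by
      by_contra h
      push Not at h
      exact hc0 (funext h)
    have hc2 : ∑ i, c i • t i = 0 := by
      rw [← hc]
      funext k
      simp [Matrix.vecMul, dotProduct]
    refine hg (σ.erase (e j)) ((Finset.erase_subset _ _).trans hV) ?_ ?_
    · rw [Finset.card_erase_of_mem (Finset.orderEmbOfFin_mem σ hn j), hn]
      have := j.pos
      omega
    · have hmem : ∀ i, i ≠ j → t i ∈ Submodule.span ℝ (P '' ((σ.erase (e j) : Finset ℕ) : Set ℕ)) := by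
        intro i hi
        refine Submodule.subset_span ⟨e i, ?_, (hte i).symm⟩
        rw [Finset.mem_coe, Finset.mem_erase]
        exact ⟨fun h => hi (e.injective h), Finset.orderEmbOfFin_mem σ hn i⟩
      have hj2 : t j ∈ Submodule.span ℝ (P '' ((σ.erase (e j) : Finset ℕ) : Set ℕ)) := by
        have h3 : t j = - ((c j)⁻¹ • ∑ i ∈ Finset.univ.erase j, c i • t i) := by
          have h4 : c j • t j + ∑ i ∈ Finset.univ.erase j, c i • t i = 0 := by
            rw [Finset.add_sum_erase _ (fun i => c i • t i) (Finset.mem_univ j), hc2]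
          have h5 : ∑ i ∈ Finset.univ.erase j, c i • t i = - (c j • t j) := by
            rw [eq_neg_iff_add_eq_zero, add_comm]
            exact h4
          rw [h5, smul_neg, neg_neg, smul_smul, inv_mul_cancel₀ hj, one_smul]
        rw [h3]
        refine Submodule.neg_mem _ (Submodule.smul_mem _ _ (Submodule.sum_mem _ fun i hi => ?_))
        exact Submodule.smul_mem _ _ (hmem i (Finset.ne_of_mem_erase hi))
      rw [hw2]
      refine Submodule.sum_mem _ fun i _ => Submodule.smul_mem _ _ ?_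
      by_cases hi : i = j
      · rw [hi]
        exact hj2
      · exact hmem i hi
  have hpos : ∀ i : Fin n, 0 < (Matrix.det t) * (Matrix.det (Matrix.updateRow t i w)) := by
    intro i
    rw [hw2, det_comb t (fun i => a (e i)) i]
    have h1 := ha (e i) (Finset.orderEmbOfFin_mem σ hn i)
    have h2 : 0 < (Matrix.det t) ^ 2 := by positivity
    nlinarith [mul_pos h1 h2]
  unfold dg Eu.Df
  rw [if_pos (by simpa using hn), if_pos hpos]
  rcases lt_or_gt_of_ne hd with h | h
  · rw [sign_neg h]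
    simp
  · rw [sign_pos h]
    simp

theorem prf (hG : S_GEN) (hC : S_CLO) : S_DGJ := by
  intro m L hf P hfan o ho hne
  obtain ⟨s0, hs0⟩ := hne
  have hinj : Function.Injective s0 := by
    intro i j hij
    by_contra hne
    have h1 := ho.1 s0 i j hne
    have h2 : s0 ∘ Equiv.swap i j = s0 := by
      funext k
      rw [Function.comp_apply, Equiv.swap_apply_def]
      split_ifs with h3 h4
      · rw [h3, hij]
      · rw [h4, hij]
      · rfl
    rw [h2] at h1
    omega
  set s1 := Finset.univ.image s0 with hs1d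
  have hs1 : s1 ∈ L := ho.2.1 s0 hs0
  have hc1 : s1.card = m + 1 := by
    rw [hs1d, Finset.card_image_of_injective _ hinj]
    simp
  have hsub : ∀ σ ∈ L, σ ⊆ verts L := by
    intro σ hσ a ha
    exact Finset.mem_biUnion.2 ⟨σ, hσ, ha⟩
  obtain ⟨w, a, hgen, hapos, hw⟩ := hG (m + 1) L hf P hfan s1 hs1 hc1 (verts L)
  refine ⟨dg P w, abs_dg P w, ?_, ?_⟩
  · intro y hy
    rw [jf_dJ]
    refine Finset.sum_eq_zero fun σ _ => Finset.sum_eq_zero fun τ _ => ?_
    by_cases h0 : y σ τ = 0
    · rw [h0, zero_mul]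
    · obtain ⟨h1, h2, h3, h4⟩ := hy σ τ h0
      rw [hC (m + 1) L hf P hfan w hgen σ τ h1 h2 h3 h4, mul_zero]
  · have h1 : jf (verts L) (dg P w) (sp ∅ (RA.oF o)) = RA.oF o s1 * dg P w s1 ∅ := by
      change ∑ σ ∈ (verts L).powerset, ∑ τ ∈ (verts L).powerset,
        sp ∅ (RA.oF o) σ τ * dg P w σ τ = _
      rw [Finset.sum_eq_single_of_mem s1 (Finset.mem_powerset.2 (hsub s1 hs1)),
        Finset.sum_eq_single_of_mem ∅ (Finset.empty_mem_powerset _)]
      · simp [sp, RA.sgg, RA.sg]
      · intro τ _ hτ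
        have h2 : sp ∅ (RA.oF o) s1 τ = 0 := by
          unfold sp
          rw [if_neg]
          rintro ⟨-, h3⟩
          exact hτ (Finset.subset_empty.1 h3)
        rw [h2, zero_mul]
      · intro σ _ hσ
        refine Finset.sum_eq_zero fun τ _ => ?_
        by_cases hτ : τ = ∅
        · subst hτ
          have h2 : sp ∅ (RA.oF o) σ ∅ = RA.oF o σ := by
            simp [sp, RA.sgg, RA.sg]
          rw [h2]
          by_cases h3 : RA.oF o σ = 0
          · rw [h3, zero_mul]
          · obtain ⟨h4, h5⟩ := P2.oF_supp ho σ h3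
            by_cases h6 : dg P w σ ∅ = 0
            · rw [h6, mul_zero]
            · obtain ⟨b, hb, hwb⟩ := dg_ne P w σ h5 h6
              exact absurd (hfan σ h4 s1 hs1 b a hb hapos (hwb.symm.trans hw)) hσ
        · have h2 : sp ∅ (RA.oF o) σ τ = 0 := by
            unfold sp
            rw [if_neg]
            rintro ⟨-, h3⟩
            exact hτ (Finset.subset_empty.1 h3)
          rw [h2, zero_mul]
    rw [h1, abs_mul, dg_eq P w (verts L) s1 hc1 (hsub s1 hs1) hgen a hapos hw, mul_one]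
    have h2 : RA.oF o s1 = (o (s1.orderEmbOfFin hc1) : ℝ) := by
      unfold RA.oF
      rw [dif_pos hc1]
    rw [h2]
    have h3 : o (s1.orderEmbOfFin hc1) ≠ 0 := by
      refine ho.2.2.1 _ (s1.orderEmbOfFin hc1).injective ?_
      have h4 : Finset.univ.image (s1.orderEmbOfFin hc1) = s1 := by
        ext b
        rw [Finset.mem_image]
        constructor
        · rintro ⟨i, -, rfl⟩
          exact Finset.orderEmbOfFin_mem s1 hc1 i
        · intro hb
          have h5 : b ∈ Set.range (s1.orderEmbOfFin hc1) := by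
            rw [Finset.range_orderEmbOfFin]
            exact hb
          obtain ⟨i, hi⟩ := h5
          exact ⟨i, Finset.mem_univ _, hi⟩
      rw [h4]
      exact hs1
    have h6 : (1 : ℤ) ≤ |o (s1.orderEmbOfFin hc1)| := Int.one_le_abs h3
    have h7 : ((1 : ℤ) : ℝ) ≤ ((|o (s1.orderEmbOfFin hc1)| : ℤ) : ℝ) := by exact_mod_cast h6
    rw [Int.cast_abs] at h7
    simpa using h7

end MP8a95ee.Npc.DGJP
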