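import Pool.Agent.Work.MP_8a95ee_gt.Un.Stmts

/-!
Block [8a95ee U], item DIM: the faces of a homology sphere of dimension `n - 1` have at most `n`
vertices.
-/

set_option autoImplicit false

namespace MP8a95ee.Npc.DIMP

open Classical

theorem prf : S_DIM := by
  intro L hL n hS s0 hs0
  by_contra hlt
  obtain ⟨s, hs, hmax⟩ := L.exists_max_image Finset.card ⟨s0, hs0⟩
  have hsn : n < s.card := lt_of_lt_of_le (not_le.1 hlt) (hmax s0 hs0)
  have h0 : (∅ : Finset ℕ) ∈ L := (hL ∅).2 fun x hx => absurd hx (Finset.notMem_empty x)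
  obtain ⟨c', hc', hb⟩ := (hS s hs).1 0 (by omega) (fun t => if t = ∅ then 1 else 0)
    (by
      intro t ht
      have h1 : t = ∅ := by
        by_contra h2
        exact ht (if_neg h2)
      subst h1
      exact ⟨h0, Finset.disjoint_empty_right s, by rwa [Finset.union_empty], rfl⟩)
    (by
      funext t
      refine Finset.sum_eq_zero fun a _ => ?_
      show RA.sg a t * (if insert a t = ∅ then 1 else 0) = 0
      rw [if_neg (Finset.insert_ne_empty a t), mul_zero])
  have hz : ∀ t, c' t = 0 := by
    intro t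
    by_contra h
    obtain ⟨_, h2, h3, h4⟩ := hc' t h
    have h5 := hmax _ h3
    rw [Finset.card_union_of_disjoint h2, h4] at h5
    omega
  have h6 := congrFun hb ∅
  have h7 : RA.bdS L c' ∅ = 0 := by
    refine Finset.sum_eq_zero fun a _ => ?_
    rw [hz, mul_zero]
  rw [h7] at h6
  simp at h6

end MP8a95ee.Npc.DIMP
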