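import Pool.Agent.Work.MP_8a95ee_gt.Un.Stmts

/-!
# DMain: the inequality with a constant depending only on the dimension, assembly
-/

set_option autoImplicit false

namespace MP8a95ee.Npc.DMainP

open MP8a95ee MP8a95ee.Npc

open Classical in
theorem prf (hDIM : S_DIM) (hDBD : S_DBD) (hFLO : S_FLO) : S_DMain := by
  intro m N
  obtain ⟨B, hB⟩ := hDBD (m + 1) (m + 1)
  obtain ⟨C1, hC1, hL1⟩ := hFLO m
  obtain ⟨C2, hC2, hL2⟩ := allULO m N
  set C : ℝ := max C1 C2 with hCdef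
  have hC0 : 0 ≤ C := hC1.trans (le_max_left _ _)
  set K : ℝ := B * ((m + 2) * C) with hK
  have hK0 : 0 ≤ K := by positivity
  refine ⟨2 / (K + 1), by positivity, ?_⟩
  intro X hX hf hS Γ F hD o ho Y _ g lam z w h
  have hflag := fun x => ((allZC6 X hX hf).1 x).1
  have hor := (allZC6 X hX hf).2 Γ (m + 1) o ho
  have hdim : ∀ x, ∀ s ∈ link X x, s.card ≤ m + 1 := fun x =>
    hDIM (link X x) (hflag x) (m + 1) (hS x)
  have hloc : ∀ x, ∃ f : (Fin (m + 1) → Finset ℕ) → ℝ,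
      (∀ T : Fin (m + 2) → Finset ℕ, KF (link X x) T → RA.dl f T = 0) ∧
      (∀ T : Fin (m + 1) → Finset ℕ, (∀ i, T i ∈ link X x) → |f T| ≤ C) ∧
      (if Tame X m N x then |∑ s ∈ link X x, (-1 / 2 : ℝ) ^ s.card| else 0) ≤
        Finsupp.linearCombination ℝ f (RA.zeta (link X x) (o x)) := by
    intro x
    by_cases hT : Tame X m N x
    · rw [if_pos hT]
      rcases hT with hN | ⟨P, hP⟩
      · obtain ⟨f, h1, h2, h3⟩ := hL2 (link X x) (hflag x)
          (by rw [((allZC6 X hX hf).1 x).2.1]; exact hN) (hS x) (o x) (hor x)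
        exact ⟨f, h1, fun T hT => (h2 T hT).trans (le_max_right _ _), h3⟩
      · obtain ⟨f, h1, h2, h3⟩ := hL1 (link X x) (hflag x) (hS x) P hP (o x) (hor x)
        exact ⟨f, h1, fun T _ => (h2 T).trans (le_max_left _ _), h3⟩
    · rw [if_neg hT]
      refine ⟨fun _ => 0, fun T _ => ?_, fun T _ => ?_, ?_⟩
      · simp [RA.dl]
      · simpa using hC0
      · refine le_of_eq ?_
        symm
        rw [Finsupp.linearCombination_apply]
        simp
  choose f0 hf1 hf2 hf3 using hloc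
  obtain ⟨f, hE, hV, hfC, hfx⟩ := allUFU X hX hf Γ F hD m f0 C hC0 (fun x _ => hf1 x)
    fun x _ => hf2 x
  obtain ⟨hVK, -, hinv, hcoc⟩ := allCO X hX hf Γ F hD m f hE hV C hfC
  have hbd := allUCO X hX hf m B (fun v Z hZ => hB X hX hf hdim v Z hZ) f hV C hfC
  obtain ⟨c, hc1, hc2, hc3⟩ := allTP3 X hX hf Γ F hD (m + 1) (ct X f) K hbd hinv hcoc
  set S : ℝ := ∑ x ∈ F.filter (Tame X m N), |∑ s ∈ link X x, (-1 / 2 : ℝ) ^ s.card| with hSdef
  have hS0 : 0 ≤ S := Finset.sum_nonneg fun x _ => abs_nonneg _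
  set A : ℝ := 2 * (-1) ^ m * ∑ x ∈ F, Finsupp.linearCombination ℝ (f x)
    (RA.zeta (link X x) (o x)) with hA
  have hev : E.ev c (fundCycle X Γ F o) = A := by
    rw [← B3.ev_eq]
    have h1 := allEV3 X hX hf Γ F (m + 1) o ho c (ct X f) hc3
    refine (Eq.trans ?_ h1).trans ?_
    · refine Finsupp.sum_congr fun σ _ => ?_
      ring
    rw [allEV2 X hX hf Γ F hD m o ho f hVK hE, hA]
  have hsum : S ≤ ∑ x ∈ F, Finsupp.linearCombination ℝ (f x) (RA.zeta (link X x) (o x)) := by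
    rw [hSdef, Finset.sum_filter]
    refine Finset.sum_le_sum fun x hx => ?_
    refine (hf3 x).trans (le_of_eq ?_)
    refine P2.lin_congr fun T hT => ?_
    exact (hfx x hx T fun i => ((P2.zeta_supp (hflag x) (hor x) T hT).1 i).1).symm
  have hAabs : 2 * S ≤ |A| := by
    rw [hA, abs_mul, abs_mul, abs_pow, abs_neg, abs_one, one_pow, mul_one, abs_two]
    refine mul_le_mul_of_nonneg_left ?_ (by norm_num)
    exact hsum.trans (le_abs_self _)
  have hbd0 : E.ev c (bd w) = 0 := by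
    have := B3.ev_bd c hc2 w
    rw [B3.ev_eq] at this
    exact this
  have hzz : E.ev (fun σ => c (g.comp σ)) z = lam * A := by
    rw [← MP8a95ee.F.ev_push, h, map_add, map_smul, hev, hbd0, add_zero, smul_eq_mul]
  have hle := B3.ev_le (fun σ => c (g.comp σ)) (K + 1) (fun σ => by
    have := hc1 (g.comp σ)
    linarith) z
  rw [B3.ev_eq] at hle
  have hle' : |lam * A| ≤ (K + 1) * l1 z := by
    rw [← hzz]; exact hle
  rw [abs_mul] at hle'
  have h3 : |lam| * (2 * S) ≤ (K + 1) * l1 z :=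
    (mul_le_mul_of_nonneg_left hAabs (abs_nonneg _)).trans hle'
  have h4 : 2 / (K + 1) * |lam| * S = |lam| * (2 * S) / (K + 1) := by ring
  rw [h4, div_le_iff₀ (by positivity)]
  linarith

end MP8a95ee.Npc.DMainP
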