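import Pool.Agent.Work.MP_8a95ee_gt.Un.Stmts

/-!
# FLO: the local functions of a fan
-/

set_option autoImplicit false

namespace MP8a95ee.Npc.FLOP

open Classical

/-- the value of the chain map on `zeta` -/
theorem value {L : Finset (Finset ℕ)} (hf : FlagC L) {m : ℕ} {o : (Fin (m + 1) → ℕ) → ℤ}
    (ho : IsOrient L (m + 1) o) (ν : Finset ℕ → Finset ℕ → ℝ)
    (Ψ : ∀ k, (Fin k → Finset ℕ) → RA.Ch (Finset ℕ) k)
    (hΨ0 : ∀ T : Fin 0 → Finset ℕ, Ψ 0 T = Finsupp.single T 1)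
    (hΨ1 : ∀ k (T : Fin (k + 1) → Finset ℕ), RA.bdT (Ψ (k + 1) T) =
      ∑ i : Fin (k + 1), ((-1 : ℝ) ^ (i : ℕ)) • Ψ k fun j => T (i.succAbove j))
    (hΨ2 : ∀ k (T : Fin k → Finset ℕ), KF L T → ∀ s ∈ (Ψ k T).support,
      CmpT L s ∧ ∀ i, s i ⊆ RA.Wt T)
    (hΨ3 : ∀ k (T : Fin k → Finset ℕ), RA.KG L (RA.TrivP L) T → ∀ s ∈ (Ψ k T).support,
      ∀ i, (s i).card = 1) :
    Finsupp.linearCombination ℝ (fun T : Fin (m + 1) → Finset ℕ =>
      Finsupp.linearCombination ℝ (Th L ν) (Ψ (m + 1) T)) (RA.zeta L o) =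
      (-2 : ℝ) ^ m • ∑ A ∈ L, wN L (verts L) A • sp A (RA.oF o) := by
  set V := verts L with hV
  -- the map to simplicial chains
  set ψ : ∀ k, (Fin k → Finset ℕ) → Finset ℕ → ℝ := fun k T =>
    Finsupp.linearCombination ℝ (fun s : Fin k → Finset ℕ => altV k fun i => pick (s i)) (Ψ k T)
    with hψ
  have h3 := allSP3
  have hpsi : RA.IsPsi L ψ := by
    refine ⟨fun T => ?_, fun k T hT t ht => ?_, fun k T hT => ?_⟩
    · simp only [hψ]
      rw [hΨ0 T, Finsupp.linearCombination_single, one_smul]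
      rfl
    · simp only [hψ] at ht
      rw [P2.lin_sum, Finset.sum_apply] at ht
      obtain ⟨s, hs, hs2⟩ := Finset.exists_ne_zero_of_sum_ne_zero ht
      obtain ⟨hcm, hW⟩ := hΨ2 k T (P2.kf_of_kg hT) s hs
      obtain ⟨hp, hm, hpr⟩ := P2.pair_mem hcm (hΨ3 k T hT s hs)
      have hs3 : altV k (fun i => pick (s i)) t ≠ 0 := by
        intro h0
        rw [Pi.smul_apply, h0, smul_zero] at hs2
        exact hs2 rfl
      obtain ⟨h7, h8, h9⟩ := (h3 L hf k).2 _ hpr t hs3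
      refine ⟨h7, fun a ha => ?_, h9⟩
      obtain ⟨i, -, hi⟩ := Finset.mem_image.1 (h8 ha)
      refine hW i ?_
      rw [hp i, hi]
      exact Finset.mem_singleton_self a
    · simp only [hψ]
      rw [← P2.bdL_apply, P2.map_lin]
      have h7 : ∀ s ∈ (Ψ (k + 1) T).support,
          (P2.bdL L) (altV (k + 1) fun i => pick (s i)) = ∑ i : Fin (k + 1),
            ((-1 : ℝ) ^ (i : ℕ)) • altV k fun j => pick (s (i.succAbove j)) := by
        intro s hs
        obtain ⟨hcm, hW⟩ := hΨ2 (k + 1) T (P2.kf_of_kg hT) s hs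
        obtain ⟨hp, hm, hpr⟩ := P2.pair_mem hcm (hΨ3 (k + 1) T hT s hs)
        rw [P2.bdL_apply]
        exact (h3 L hf k).1 _ hpr
      rw [P2.lin_congr h7, ← P2.lin_bdT (fun s : Fin k → Finset ℕ => altV k fun i => pick (s i)),
        hΨ1 k T, map_sum]
      refine Finset.sum_congr rfl fun i _ => ?_
      rw [map_smul]
  have hB7 := RA.itemB7 RA.itemB7a L hf m o ho ψ hpsi
  have h7 : ∀ T ∈ (RA.zeta L o).support, Finsupp.linearCombination ℝ (Th L ν) (Ψ (m + 1) T) =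
      ∑ A ∈ V.powerset, ((1 / 2 : ℝ) ^ V.card) • sp A (ψ (m + 1) T) := by
    intro T hT
    have hKG := P2.zeta_supp hf ho T hT
    have h8 : ∀ s ∈ (Ψ (m + 1) T).support, Th L ν s =
        (∑ A ∈ V.powerset, ((1 / 2 : ℝ) ^ V.card) • P2.spL A)
          (altV (m + 1) fun i => pick (s i)) := by
      intro s hs
      obtain ⟨hcm, -⟩ := hΨ2 _ T (P2.kf_of_kg hKG) s hs
      have h1 := hΨ3 _ T hKG s hs
      obtain ⟨-, hm, -⟩ := P2.pair_mem hcm h1
      rw [allSP4 L hf ν (m + 1) s fun i => ⟨hm i, h1 i⟩, LinearMap.sum_apply]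
      rfl
    rw [P2.lin_congr h8, ← P2.map_lin, LinearMap.sum_apply]
    rfl
  rw [P2.lin_congr h7]
  have h9 : ∀ T, (∑ A ∈ V.powerset, ((1 / 2 : ℝ) ^ V.card) • sp A (ψ (m + 1) T)) =
      (∑ A ∈ V.powerset, ((1 / 2 : ℝ) ^ V.card) • P2.spL A) (ψ (m + 1) T) := by
    intro T
    rw [LinearMap.sum_apply]
    rfl
  simp only [h9]
  rw [← P2.map_lin, hB7, map_smul, LinearMap.sum_apply]
  have hsupp : ∀ t, RA.oF o t ≠ 0 → t ∈ L ∧ t.card = m + 1 := P2.oF_supp ho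
  rw [← allSP5 L hf (RA.oF o) fun t ht => (hsupp t ht).1]
  rfl

/-- the weight of the empty face -/
theorem wN_empty {L : Finset (Finset ℕ)} :
    wN L (verts L) ∅ = ∑ s ∈ L, (-1 / 2 : ℝ) ^ s.card := by
  unfold wN
  have h8 : L.filter (fun G => ∅ ⊆ G ∧ G ⊆ verts L) = L := by
    refine Finset.filter_true_of_mem fun G hG => ⟨Finset.empty_subset _, fun a ha => ?_⟩
    unfold verts
    rw [Finset.mem_biUnion]
    exact ⟨G, hG, ha⟩
  rw [h8]
  refine Finset.sum_congr rfl fun G _ => ?_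
  rw [Finset.sdiff_empty, ← mul_pow]
  norm_num

theorem prf (hDIM : S_DIM) (hNUB : S_NUB) (hPSB : S_PSB) (hALT : S_ALT) (hTHB : S_THB)
    (hDGJ : S_DGJ) : S_FLO := by
  intro m
  obtain ⟨K, hK0, hK⟩ := hTHB (m + 1)
  refine ⟨((m + 1).factorial : ℝ) * K, mul_nonneg (Nat.cast_nonneg _) hK0, ?_⟩
  intro L hf hS P hP o ho
  obtain ⟨Ψ, hΨ0, hΨ1, hΨ2, hΨ3, hΨ4⟩ := hPSB L hf
  -- the measures
  obtain ⟨ν, hν⟩ : ∃ ν : Finset ℕ → Finset ℕ → ℝ, ∀ C, Cls L C → 1 < C.card →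
      IsNu L C (ν C) ∧ ∀ A, |ν C A| ≤ 4 ^ (C.card + 1) := by
    refine ⟨fun C => if h : Cls L C ∧ 1 < C.card then (hNUB L hf C h.1 h.2).choose else 0,
      fun C hC hC1 => ?_⟩
    simp only [dif_pos (And.intro hC hC1)]
    exact (hNUB L hf C hC hC1).choose_spec
  have hν' : ∀ C, Cls L C → 1 < C.card → IsNu L C (ν C) := fun C h1 h2 => (hν C h1 h2).1
  -- the degree functional
  obtain ⟨s0, hs0, -, -⟩ := allUOR L hf m hS o o ho ho
  obtain ⟨φ, hφ1, hφ2, hφ3⟩ := hDGJ m L hf P hP o ho ⟨s0, hs0⟩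
  set V := verts L with hV
  set lam : JC →ₗ[ℝ] ℝ := jf V φ with hlam
  -- the map to the deleted join
  set Φ : ∀ k, (Fin k → Finset ℕ) → JC := fun k T =>
    Finsupp.linearCombination ℝ (Th L ν) (Ψ k T) with hΦ
  have hΦbd : ∀ k (T : Fin (k + 1) → Finset ℕ), KF L T →
      dJ V (Φ (k + 1) T) =
        ∑ i : Fin (k + 1), ((-1 : ℝ) ^ (i : ℕ)) • Φ k fun j => T (i.succAbove j) := by
    intro k T hT
    simp only [hΦ]
    rw [← P2.dJL_apply, P2.map_lin]
    have h7 : ∀ s ∈ (Ψ (k + 1) T).support, (P2.dJL V) (Th L ν s) = ∑ i : Fin (k + 1),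
        ((-1 : ℝ) ^ (i : ℕ)) • Th L ν fun j => s (i.succAbove j) := by
      intro s hs
      rw [P2.dJL_apply]
      exact allTH2 L hf ν hν' k s (hΨ2 (k + 1) T hT s hs).1
    rw [P2.lin_congr h7, ← P2.lin_bdT (Th L ν), hΨ1 k T, map_sum]
    refine Finset.sum_congr rfl fun i _ => ?_
    rw [map_smul]
  have hΦJ : ∀ k (T : Fin k → Finset ℕ), KF L T → Φ k T ∈ P2.JS L k := by
    intro k T hT
    simp only [hΦ]
    rw [P2.lin_sum]
    refine Submodule.sum_mem _ fun s hs => Submodule.smul_mem _ _ ?_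
    exact allTH3 L hf ν hν' k s (hΨ2 k T hT s hs).1
  -- the bound
  have hbound : ∀ T : Fin (m + 1) → Finset ℕ, KF L T →
      |lam (Φ (m + 1) T)| ≤ ((m + 1).factorial : ℝ) * K := by
    intro T hT
    simp only [hΦ]
    rw [P2.lin_sum, map_sum]
    calc |∑ s ∈ (Ψ (m + 1) T).support, lam (Ψ (m + 1) T s • Th L ν s)|
        ≤ ∑ s ∈ (Ψ (m + 1) T).support, |lam (Ψ (m + 1) T s • Th L ν s)| :=
          Finset.abs_sum_le_sum_abs _ _
      _ ≤ ∑ s ∈ (Ψ (m + 1) T).support, |Ψ (m + 1) T s| * K := by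
          refine Finset.sum_le_sum fun s hs => ?_
          rw [map_smul, smul_eq_mul, abs_mul]
          refine mul_le_mul_of_nonneg_left ?_ (abs_nonneg _)
          exact hK L hf (hDIM L hf (m + 1) hS) ν hν lam (fun k t => hALT V φ hφ1 k t) (m + 1)
            le_rfl s (hΨ2 (m + 1) T hT s hs).1
      _ = (∑ s ∈ (Ψ (m + 1) T).support, |Ψ (m + 1) T s|) * K := by
          rw [Finset.sum_mul]
      _ ≤ ((m + 1).factorial : ℝ) * K := mul_le_mul_of_nonneg_right (hΨ4 (m + 1) T) hK0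
  -- the value
  have hval : lam (Finsupp.linearCombination ℝ (Φ (m + 1)) (RA.zeta L o)) =
      (-2 : ℝ) ^ m * ((∑ s ∈ L, (-1 / 2 : ℝ) ^ s.card) * lam (sp ∅ (RA.oF o))) := by
    have h1 := value hf ho ν Ψ hΨ0 hΨ1 hΨ2 hΨ3
    simp only [hΦ]
    rw [h1, map_smul, map_sum, smul_eq_mul]
    congr 1
    have hempty : ∅ ∈ L := (hf ∅).2 fun x hx => absurd hx (Finset.notMem_empty x)
    rw [← Finset.add_sum_erase L _ hempty, ← wN_empty, map_smul, smul_eq_mul]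
    have h0 : ∑ A ∈ L.erase ∅, lam (wN L (verts L) A • sp A (RA.oF o)) = 0 := by
      refine Finset.sum_eq_zero fun A hA => ?_
      rw [Finset.mem_erase] at hA
      obtain ⟨y, hy1, hy2⟩ := allSP6 L hf (m + 1) (RA.oF o) (P2.oF_supp ho)
        (RA.h61_oFcycle ho) A hA.2 (Finset.nonempty_iff_ne_empty.2 hA.1)
      rw [map_smul, ← hy2, hφ2 y hy1, smul_zero]
    rw [h0, add_zero]
  -- the sign
  obtain ⟨ε, hε, hε'⟩ : ∃ ε : ℝ, |ε| = 1 ∧
      |lam (Finsupp.linearCombination ℝ (Φ (m + 1)) (RA.zeta L o))| =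
        ε * lam (Finsupp.linearCombination ℝ (Φ (m + 1)) (RA.zeta L o)) := by
    rcases le_total 0 (lam (Finsupp.linearCombination ℝ (Φ (m + 1)) (RA.zeta L o))) with h | h
    · exact ⟨1, by simp, by rw [abs_of_nonneg h, one_mul]⟩
    · exact ⟨-1, by simp, by rw [abs_of_nonpos h]; ring⟩
  refine ⟨fun T => if KF L T then ε * lam (Φ (m + 1) T) else 0, ?_, ?_, ?_⟩
  · intro T hT
    unfold RA.dl
    have h1 : ∀ i : Fin (m + 2), ((-1 : ℝ) ^ (i : ℕ)) •
        (if KF L (fun j => T (i.succAbove j)) then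
          ε * lam (Φ (m + 1) fun j => T (i.succAbove j)) else 0) =
        ε * lam (((-1 : ℝ) ^ (i : ℕ)) • Φ (m + 1) fun j => T (i.succAbove j)) := by
      intro i
      rw [if_pos (P2.kf_comp hT _), map_smul, smul_eq_mul, smul_eq_mul]
      ring
    rw [Finset.sum_congr rfl fun i _ => h1 i, ← Finset.mul_sum, ← map_sum,
      ← hΦbd (m + 1) T hT, hφ2 _ (hΦJ (m + 2) T hT), mul_zero]
  · intro T
    by_cases hT : KF L T
    · simp only [if_pos hT]
      rw [abs_mul, hε, one_mul]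
      exact hbound T hT
    · simp only [if_neg hT]
      rw [abs_zero]
      exact mul_nonneg (Nat.cast_nonneg _) hK0
  · have h1 : Finsupp.linearCombination ℝ (fun T : Fin (m + 1) → Finset ℕ =>
        if KF L T then ε * lam (Φ (m + 1) T) else 0) (RA.zeta L o) =
        ε * lam (Finsupp.linearCombination ℝ (Φ (m + 1)) (RA.zeta L o)) := by
      rw [P2.lin_congr (G := fun T : Fin (m + 1) → Finset ℕ => ε * lam (Φ (m + 1) T))
        (fun T hT => if_pos (P2.kf_of_kg (P2.zeta_supp hf ho T hT))), P2.map_lin, P2.lin_sum,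
        P2.lin_sum, Finset.mul_sum]
      refine Finset.sum_congr rfl fun s _ => ?_
      simp only [smul_eq_mul]
      ring
    rw [h1, ← hε', hval, abs_mul, abs_mul]
    have h2 : (1 : ℝ) ≤ |(-2 : ℝ) ^ m| := by
      rw [abs_pow]
      refine one_le_pow₀ ?_
      norm_num
    have h3 : 0 ≤ |∑ s ∈ L, (-1 / 2 : ℝ) ^ s.card| := abs_nonneg _
    calc |∑ s ∈ L, (-1 / 2 : ℝ) ^ s.card|
        = 1 * (|∑ s ∈ L, (-1 / 2 : ℝ) ^ s.card| * 1) := by ring
      _ ≤ |(-2 : ℝ) ^ m| * (|∑ s ∈ L, (-1 / 2 : ℝ) ^ s.card| * |lam (sp ∅ (RA.oF o))|) := by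
          refine mul_le_mul h2 (mul_le_mul_of_nonneg_left hφ3 h3) (mul_nonneg h3 zero_le_one)
            (abs_nonneg _)

end MP8a95ee.Npc.FLOP
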