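import Pool.Agent.Work.MP_8a95ee_gt.Un.Stmts

/-!
# GEN: there is a generic vector in the open cone of a face with `n` vertices
-/

set_option autoImplicit false

namespace MP8a95ee.Npc.GENP

open Classical Polynomial

/-- the vectors of a face of a fan are linearly independent -/
theorem coef_zero {n : ℕ} {L : Finset (Finset ℕ)} (hL : FlagC L) {P : ℕ → Fin n → ℝ}
    (hP : IsFan L P) {s : Finset ℕ} (hs : s ∈ L) (g : ℕ → ℝ)
    (hg : ∑ v ∈ s, g v • P v = 0) : ∀ v ∈ s, g v = 0 := by
  have hp : s.filter (fun v => 0 < g v) ∈ L := hL.mono hs (Finset.filter_subset _ _)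
  have hn : s.filter (fun v => g v < 0) ∈ L := hL.mono hs (Finset.filter_subset _ _)
  have hsum : ∑ v ∈ s.filter (fun v => 0 < g v), g v • P v =
      ∑ v ∈ s.filter (fun v => g v < 0), (-g v) • P v := by
    rw [Finset.sum_filter, Finset.sum_filter, ← sub_eq_zero, ← Finset.sum_sub_distrib]
    refine Eq.trans (Finset.sum_congr rfl ?_) hg
    intro v _
    rcases lt_trichotomy (g v) 0 with h | h | h
    · simp [h, not_lt.2 h.le]
    · simp [h]
    · simp [h, not_lt.2 h.le]
  have heq := hP _ hp _ hn g (fun v => -g v)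
    (fun v hv => (Finset.mem_filter.1 hv).2)
    (fun v hv => neg_pos.2 (Finset.mem_filter.1 hv).2) hsum
  intro v hv
  rcases lt_trichotomy (g v) 0 with h | h | h
  · have h1 : v ∈ s.filter (fun v => g v < 0) := Finset.mem_filter.2 ⟨hv, h⟩
    rw [← heq] at h1
    exact absurd (Finset.mem_filter.1 h1).2 (not_lt.2 h.le)
  · exact h
  · have h1 : v ∈ s.filter (fun v => 0 < g v) := Finset.mem_filter.2 ⟨hv, h⟩
    rw [heq] at h1
    exact absurd (Finset.mem_filter.1 h1).2 (not_lt.2 h.le)

theorem span_top {n : ℕ} {L : Finset (Finset ℕ)} (hL : FlagC L) {P : ℕ → Fin n → ℝ}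
    (hP : IsFan L P) {s : Finset ℕ} (hs : s ∈ L) (hc : s.card = n) :
    Submodule.span ℝ (Set.range fun v : s => P v) = ⊤ := by
  have hli : LinearIndependent ℝ fun v : s => P v := by
    rw [Fintype.linearIndependent_iff]
    intro g hg v
    have h := coef_zero hL hP hs (fun w => if h : w ∈ s then g ⟨w, h⟩ else 0) (by
      rw [← hg, ← Finset.sum_attach s]
      apply Finset.sum_congr rfl
      intro w _
      simp) v v.2
    simpa using h
  apply hli.span_eq_top_of_card_eq_finrank'
  simp [hc]

theorem exists_fun {n : ℕ} {P : ℕ → Fin n → ℝ} (T : Finset ℕ) (hT : T.card < n) :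
    ∃ l : (Fin n → ℝ) →ₗ[ℝ] ℝ, l ≠ 0 ∧ ∀ x ∈ Submodule.span ℝ (P '' (T : Set ℕ)), l x = 0 := by
  have hlt : Submodule.span ℝ (P '' (T : Set ℕ)) < ⊤ := by
    rw [lt_top_iff_ne_top]
    intro h
    have h1 : Module.finrank ℝ (Submodule.span ℝ (P '' (T : Set ℕ))) ≤ T.card := by
      rw [← Finset.coe_image]
      exact (finrank_span_finset_le_card _).trans Finset.card_image_le
    rw [h, finrank_top, Module.finrank_fin_fun] at h1
    omega
  obtain ⟨l, hl, hle⟩ := Submodule.exists_le_ker_of_lt_top _ hlt
  exact ⟨l, hl, fun x hx => hle hx⟩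

theorem prf : S_GEN := by
  intro n L hL P hP s hs hc V
  -- for every small `T` a functional and a polynomial
  have hpoly : ∀ T : Finset ℕ, ∃ p : ℝ[X], p ≠ 0 ∧ (T.card < n → ∀ x : ℝ,
      ∑ v ∈ s, x ^ v • P v ∈ Submodule.span ℝ (P '' (T : Set ℕ)) → p.eval x = 0) := by
    intro T
    by_cases hT : T.card < n
    · obtain ⟨l, hl, hl0⟩ := exists_fun (P := P) T hT
      refine ⟨∑ v ∈ s, C (l (P v)) * X ^ v, ?_, ?_⟩
      · intro h0
        apply hl
        have hv : ∀ v ∈ s, l (P v) = 0 := by
          intro v hv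
          have h1 := congrArg (fun q : ℝ[X] => q.coeff v) h0
          simp only [finsetSum_coeff, coeff_C_mul, coeff_X_pow, coeff_zero] at h1
          rw [Finset.sum_eq_single v] at h1
          · simpa using h1
          · intro b _ hb
            rw [if_neg (Ne.symm hb), mul_zero]
          · intro h
            exact absurd hv h
        have htop := span_top hL hP hs hc
        apply LinearMap.ext
        intro x
        have hx : x ∈ Submodule.span ℝ (Set.range fun v : s => P v) := by
          rw [htop]; exact Submodule.mem_top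
        have hle : Submodule.span ℝ (Set.range fun v : s => P v) ≤ LinearMap.ker l := by
          rw [Submodule.span_le]
          rintro _ ⟨v, rfl⟩
          exact hv v v.2
        simpa using hle hx
      · intro _ x hx
        have h1 := hl0 _ hx
        rw [map_sum] at h1
        rw [eval_finsetSum]
        refine Eq.trans (Finset.sum_congr rfl ?_) h1
        intro v _
        rw [eval_mul, eval_C, eval_pow, eval_X, map_smul, smul_eq_mul, mul_comm]
    · exact ⟨1, one_ne_zero, fun h => absurd h hT⟩
  choose p hp0 hp using hpoly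
  have hprod : (∏ T ∈ V.powerset, p T) ≠ 0 := Finset.prod_ne_zero_iff.2 fun T _ => hp0 T
  obtain ⟨x, hx0, hx⟩ := (Set.Ioi_infinite (0 : ℝ)).exists_notMem_finset
    (∏ T ∈ V.powerset, p T).roots.toFinset
  have hne : (∏ T ∈ V.powerset, p T).eval x ≠ 0 := by
    intro h
    apply hx
    rw [Multiset.mem_toFinset, mem_roots hprod]
    exact h
  refine ⟨∑ v ∈ s, x ^ v • P v, fun v => x ^ v, ?_, fun v _ => pow_pos hx0 v, rfl⟩
  intro T hT hTc hmem
  apply hne
  rw [eval_prod]
  exact Finset.prod_eq_zero (Finset.mem_powerset.2 hT) (hp T hTc x hmem)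

end MP8a95ee.Npc.GENP
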