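import Pool.Agent.Work.MP_8a95ee_gt.Un.Stmts

/-!
# Item NUB: bounded signed measures (helper85)
-/

set_option autoImplicit false

namespace MP8a95ee.Npc.NUBP

open Classical MP8a95ee.Npc.NU4

lemma card_le (L : Finset (Finset ℕ)) (C A : Finset ℕ) :
    ((L.filter (fun G => A ⊆ G ∧ G ⊆ C)).card : ℝ) ≤ 2 ^ C.card := by
  have h : (L.filter (fun G => A ⊆ G ∧ G ⊆ C)).card ≤ C.powerset.card := by
    refine Finset.card_le_card fun G hG => ?_
    rw [Finset.mem_filter] at hG
    exact Finset.mem_powerset.mpr hG.2.2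
  rw [Finset.card_powerset] at h
  exact_mod_cast h

lemma wN_le (L : Finset (Finset ℕ)) (C A : Finset ℕ) : |wN L C A| ≤ 2 ^ C.card := by
  refine le_trans ?_ (card_le L C A)
  unfold wN
  refine (Finset.abs_sum_le_sum_abs _ _).trans ?_
  calc ∑ G ∈ L.filter (fun G => A ⊆ G ∧ G ⊆ C), |(1 / 2 : ℝ) ^ G.card * (-1) ^ (G \ A).card|
      ≤ ∑ _G ∈ L.filter (fun G => A ⊆ G ∧ G ⊆ C), (1 : ℝ) := by
        refine Finset.sum_le_sum fun G _ => ?_
        rw [abs_mul, abs_pow, abs_pow, abs_neg, abs_one, one_pow, mul_one]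
        exact pow_le_one₀ (abs_nonneg _) (by rw [abs_of_pos] <;> norm_num)
    _ = _ := by simp

lemma uN_le (L : Finset (Finset ℕ)) (E A : Finset ℕ) : |uN L E A| ≤ 2 ^ E.card := by
  refine le_trans ?_ (card_le L E A)
  unfold uN
  refine (Finset.abs_sum_le_sum_abs _ _).trans ?_
  calc ∑ G ∈ L.filter (fun G => A ⊆ G ∧ G ⊆ E), |(-1 : ℝ) ^ (G \ A).card|
      ≤ ∑ _G ∈ L.filter (fun G => A ⊆ G ∧ G ⊆ E), (1 : ℝ) := by
        refine Finset.sum_le_sum fun G _ => ?_
        rw [abs_pow, abs_neg, abs_one, one_pow]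
    _ = _ := by simp

lemma uN_one (L : Finset (Finset ℕ)) (E A : Finset ℕ) (h : uN L E A ≠ 0) : 1 ≤ |uN L E A| := by
  have e : uN L E A =
      ((∑ G ∈ L.filter (fun G => A ⊆ G ∧ G ⊆ E), (-1 : ℤ) ^ (G \ A).card : ℤ) : ℝ) := by
    unfold uN
    push_cast
    rfl
  rw [e] at h ⊢
  have h2 : (∑ G ∈ L.filter (fun G => A ⊆ G ∧ G ⊆ E), (-1 : ℤ) ^ (G \ A).card) ≠ 0 := by
    intro h0
    rw [h0] at h
    exact h Int.cast_zero
  have h3 := Int.one_le_abs h2
  rw [← Int.cast_abs]
  exact_mod_cast h3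

theorem prf : S_NUB := by
  intro L hL C hC hcard
  have h1 := allNU1
  have h2 := allNU2
  have h3 := allNU3
  have hemp : (∅ : Finset ℕ) ∈ L :=
    (hL ∅).2 fun x hx => absurd hx (Finset.notMem_empty x)
  have hp1 : (1 : ℝ) ≤ 2 ^ C.card := one_le_pow₀ (by norm_num)
  have hp0 : (0 : ℝ) ≤ 2 ^ C.card := by positivity
  have hp4 : (4 : ℝ) ^ (C.card + 1) = 4 * (2 ^ C.card * 2 ^ C.card) := by
    rw [← mul_pow]; norm_num [pow_succ, mul_comm]
  by_cases h0 : wN L C ∅ = 0
  · refine ⟨fun A => if A ∈ L ∧ A ⊆ C then wN L C A else 0, ⟨?_, ?_⟩, ?_⟩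
    · intro A hA
      have hA' : A ∈ L ∧ A ⊆ C := by
        by_contra h
        exact hA (if_neg h)
      refine ⟨hA'.2, Or.inl ⟨hA'.1, ?_⟩⟩
      rw [Finset.nonempty_iff_ne_empty]
      rintro rfl
      apply hA
      dsimp only
      rw [if_pos hA', h0]
    · intro F hF hFC B hB
      rw [sum_part L C C F B (Finset.Subset.refl C) (wN L C)]
      exact h1 L hL C F hF hFC B hB
    · intro A
      dsimp only
      rw [hp4]
      have hw := wN_le L C A
      split_ifs
      · nlinarith
      · rw [abs_zero]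
        positivity
  · obtain h | ⟨A0, hA0, hA0n, hA0C, hu⟩ := h3 L hL C hC hcard
    · exact absurd h h0
    have hEC : C \ A0 ⊆ C := Finset.sdiff_subset
    have hEne : C \ A0 ≠ ∅ := by
      intro h
      rw [Finset.sdiff_eq_empty_iff_subset] at h
      have : C = A0 := Finset.Subset.antisymm h hA0C
      exact not_face L hL C hC.2.1 hcard (this ▸ hA0)
    have hCE : C \ (C \ A0) = A0 := by
      rw [Finset.sdiff_sdiff_eq_self hA0C]
    set E := C \ A0 with hE
    set t : ℝ := wN L C ∅ / uN L E ∅ with ht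
    have htb : |t| ≤ 2 ^ C.card := by
      rw [ht, abs_div]
      have hu1 := uN_one L E ∅ hu
      rw [div_le_iff₀ (by linarith)]
      have hw := wN_le L C ∅
      nlinarith
    set ν : Finset ℕ → ℝ := fun A => (if A ∈ L ∧ A ⊆ C then wN L C A else 0) +
      t * ((if A = E then 1 else 0) - (if A ∈ L ∧ A ⊆ E then uN L E A else 0)) with hν
    have hν0 : ν ∅ = 0 := by
      rw [hν]
      dsimp only
      rw [if_pos ⟨hemp, Finset.empty_subset C⟩, if_neg (fun h => hEne h.symm),
        if_pos ⟨hemp, Finset.empty_subset E⟩, ht]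
      field_simp
      ring
    refine ⟨ν, ⟨?_, ?_⟩, ?_⟩
    · intro A hA
      have hAne : A.Nonempty := by
        rw [Finset.nonempty_iff_ne_empty]
        rintro rfl
        exact hA hν0
      by_cases hAL : A ∈ L ∧ A ⊆ C
      · exact ⟨hAL.2, Or.inl ⟨hAL.1, hAne⟩⟩
      · have hAE : A = E := by
          by_contra hne
          apply hA
          rw [hν]
          dsimp only
          rw [if_neg hAL, if_neg hne, if_neg (fun h => hAL ⟨h.1, h.2.trans hEC⟩)]
          ring
        rw [hAE]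
        exact ⟨hEC, Or.inr (by rw [hCE]; exact ⟨hA0, hA0n⟩)⟩
    · intro F hF hFC B hB
      rw [hν]
      dsimp only
      rw [Finset.sum_add_distrib, ← Finset.mul_sum, Finset.sum_sub_distrib,
        sum_part L C C F B (Finset.Subset.refl C) (wN L C), sum_part L C E F B hEC (uN L E),
        sum_point C E F B hEC, h1 L hL C F hF hFC B hB, h2 L hL E F hF B hB]
      ring
    · intro A
      have a1 : |(if A ∈ L ∧ A ⊆ C then wN L C A else 0)| ≤ 2 ^ C.card := by
        split_ifs
        · exact wN_le L C A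
        · rw [abs_zero]; exact hp0
      have a2 : |(if A ∈ L ∧ A ⊆ E then uN L E A else 0)| ≤ 2 ^ C.card := by
        split_ifs
        · refine (uN_le L E A).trans ?_
          exact pow_le_pow_right₀ (by norm_num) (Finset.card_le_card hEC)
        · rw [abs_zero]; exact hp0
      have a3 : |(if A = E then (1 : ℝ) else 0)| ≤ 1 := by
        split_ifs
        · rw [abs_one]
        · rw [abs_zero]; norm_num
      rw [hν]
      dsimp only
      rw [hp4]
      calc |(if A ∈ L ∧ A ⊆ C then wN L C A else 0) +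
            t * ((if A = E then 1 else 0) - (if A ∈ L ∧ A ⊆ E then uN L E A else 0))|
          ≤ |(if A ∈ L ∧ A ⊆ C then wN L C A else 0)| +
            |t * ((if A = E then 1 else 0) - (if A ∈ L ∧ A ⊆ E then uN L E A else 0))| :=
            abs_add_le _ _
        _ ≤ 2 ^ C.card + 2 ^ C.card * (1 + 2 ^ C.card) := by
            refine add_le_add a1 ?_
            rw [abs_mul]
            refine mul_le_mul htb ?_ (abs_nonneg _) hp0
            exact (abs_sub _ _).trans (add_le_add a3 a2)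
        _ ≤ 4 * (2 ^ C.card * 2 ^ C.card) := by nlinarith

end MP8a95ee.Npc.NUBP
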