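import Pool.Agent.Work.MP_8a95ee_gt.Un.Stmts

/-!
# Item PSB: the chain map `Ψ` is bounded
-/

set_option autoImplicit false

namespace MP8a95ee.Npc.PSBP

open Classical

/-- the l1-norm -/
noncomputable def nrm {α : Type} (c : α →₀ ℝ) : ℝ := ∑ s ∈ c.support, |c s|

theorem nrm_eq {α : Type} (c : α →₀ ℝ) (S : Finset α) (h : c.support ⊆ S) :
    nrm c = ∑ s ∈ S, |c s| := by
  unfold nrm
  refine Finset.sum_subset h fun s _ hs => ?_
  rw [Finsupp.notMem_support_iff.1 hs, abs_zero]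

theorem nrm_zero {α : Type} : nrm (0 : α →₀ ℝ) = 0 := by
  simp [nrm]

theorem nrm_add {α : Type} (a b : α →₀ ℝ) : nrm (a + b) ≤ nrm a + nrm b := by
  rw [nrm_eq (a + b) (a.support ∪ b.support) Finsupp.support_add,
    nrm_eq a (a.support ∪ b.support) Finset.subset_union_left,
    nrm_eq b (a.support ∪ b.support) Finset.subset_union_right, ← Finset.sum_add_distrib]
  refine Finset.sum_le_sum fun s _ => ?_
  rw [Finsupp.add_apply]
  exact abs_add_le _ _

theorem nrm_smul {α : Type} (r : ℝ) (c : α →₀ ℝ) : nrm (r • c) = |r| * nrm c := by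
  rw [nrm_eq (r • c) c.support Finsupp.support_smul]
  unfold nrm
  rw [Finset.mul_sum]
  refine Finset.sum_congr rfl fun s _ => ?_
  rw [Finsupp.smul_apply, smul_eq_mul, abs_mul]

theorem nrm_single {α : Type} (x : α) (r : ℝ) : nrm (Finsupp.single x r) = |r| := by
  rw [nrm_eq _ {x} Finsupp.support_single_subset, Finset.sum_singleton, Finsupp.single_eq_same]

theorem nrm_sum {α ι : Type} (S : Finset ι) (f : ι → α →₀ ℝ) :
    nrm (∑ i ∈ S, f i) ≤ ∑ i ∈ S, nrm (f i) := by
  induction S using Finset.induction_on with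
  | empty => simp [nrm_zero]
  | insert a S ha ih =>
    rw [Finset.sum_insert ha, Finset.sum_insert ha]
    exact (nrm_add _ _).trans (by linarith)

theorem nrm_cons {k : ℕ} (a : Finset ℕ) (c : RA.Ch (Finset ℕ) k) :
    nrm (Tup.cons a c) ≤ nrm c := by
  unfold Tup.cons
  rw [Finsupp.linearCombination_apply, Finsupp.sum]
  refine (nrm_sum _ _).trans ?_
  unfold nrm
  refine Finset.sum_le_sum fun s _ => ?_
  change nrm (c s • Finsupp.single (Fin.cons a s : Fin (k + 1) → Finset ℕ) (1 : ℝ)) ≤ _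
  rw [nrm_smul, nrm_single, abs_one, mul_one]

theorem nrm_Psi (L : Finset (Finset ℕ)) : ∀ k (T : Fin k → Finset ℕ),
    nrm (PS3.Psi L k T) ≤ (k.factorial : ℝ)
  | 0, T => by
    change nrm (Finsupp.single T 1) ≤ _
    rw [nrm_single, abs_one, Nat.factorial_zero, Nat.cast_one]
  | k + 1, T => by
    change nrm (Tup.cons (PS3.ch L T)
      (∑ i : Fin (k + 1), ((-1 : ℝ) ^ (i : ℕ)) • PS3.Psi L k fun j => T (i.succAbove j))) ≤ _
    refine (nrm_cons _ _).trans ((nrm_sum _ _).trans ?_)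
    have h : ∀ i ∈ (Finset.univ : Finset (Fin (k + 1))),
        nrm (((-1 : ℝ) ^ (i : ℕ)) • PS3.Psi L k fun j => T (i.succAbove j)) ≤
          (k.factorial : ℝ) := by
      intro i _
      rw [nrm_smul, abs_pow, abs_neg, abs_one, one_pow, one_mul]
      exact nrm_Psi L k _
    refine (Finset.sum_le_sum h).trans (le_of_eq ?_)
    rw [Finset.sum_const, Finset.card_univ, Fintype.card_fin, nsmul_eq_mul,
      Nat.factorial_succ, Nat.cast_mul]

/-- PSB -/
theorem prf : S_PSB := by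
  intro L hL
  refine ⟨PS3.Psi L, fun T => rfl, PS3.Psi_bd L, ?_, ?_, ?_⟩
  · intro k T hT s hs
    exact ⟨PS3.supp_cmp allPS1 allPS2 hL k T hT s hs,
      fun i => PS3.supp_Wt allPS1 hL hT hs i⟩
  · intro k T hT s hs i
    obtain ⟨l, g, hg⟩ := PS3.supp_form k _ s hs i
    rw [hg]
    exact PS3.ch_card ((allPS1 L hL l _ (PS3.KF_comp (PS3.KF_of_KG hT) g)).2 (RA.KG_comp hT g))
  · intro k T
    exact nrm_Psi L k T

end MP8a95ee.Npc.PSBP
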