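import Pool.Agent.Work.MP_8a95ee_gt.Un.Stmts

/-!
# Item WAD: pairwise crossing walls, bound by the dimension of the links (helper82)
-/

set_option autoImplicit false

namespace MP8a95ee.Npc

open Classical

namespace WADP

theorem prf : S_WAD := by
  intro X hX hf D d hd w hcross
  have h1 : S_WA1 := allWA1
  have h2 : S_WA2 := allWA2
  have hs3 : S_WA3 := allWA3
  have hN1 : 1 ≤ d := by
    obtain ⟨a, ha⟩ := WA4.hasNbr hX.conn
    have h3 : ({a} : Finset ℕ) ∈ link X 0 := by
      rw [mem_link]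
      refine ⟨?_, ?_⟩
      · intro b hb
        rw [Finset.mem_singleton.1 hb]
        exact (mem_nbr hf).2 ha
      · intro b hb c hc hbc
        rw [Finset.mem_singleton.1 hb, Finset.mem_singleton.1 hc] at hbc
        exact absurd rfl hbc
    have h4 := hd 0 _ h3
    rwa [Finset.card_singleton] at h4
  -- another index
  have hother : ∀ i : Fin (d + 1), ∃ j, i ≠ j := by
    intro i
    have : Nontrivial (Fin (d + 1)) := Fin.nontrivial_iff_two_le.2 (by omega)
    obtain ⟨j, hj⟩ := exists_ne i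
    exact ⟨j, hj.symm⟩
  -- the two intersections
  obtain ⟨xA, hxA⟩ : ∃ z, ∀ i, z ∈ D.side (w i) := by
    obtain ⟨z, hz⟩ := D.helly (Finset.univ.image fun i => D.side (w i))
      (by
        intro A hA
        obtain ⟨i, -, rfl⟩ := Finset.mem_image.1 hA
        exact ⟨w i, Or.inl rfl⟩)
      (by
        intro A hA B hB
        obtain ⟨i, -, rfl⟩ := Finset.mem_image.1 hA
        obtain ⟨j, -, rfl⟩ := Finset.mem_image.1 hB
        by_cases hij : i = j
        · subst hij
          obtain ⟨k, hk⟩ := hother i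
          obtain ⟨⟨z, hz, -⟩, -⟩ := hcross i k hk
          exact ⟨z, hz, hz⟩
        · obtain ⟨⟨z, hz, hz'⟩, -⟩ := hcross i j hij
          exact ⟨z, hz, hz'⟩)
    exact ⟨z, fun i => hz _ (Finset.mem_image_of_mem _ (Finset.mem_univ i))⟩
  obtain ⟨yB, hyB⟩ : ∃ z, ∀ i, z ∉ D.side (w i) := by
    obtain ⟨z, hz⟩ := D.helly (Finset.univ.image fun i => (D.side (w i))ᶜ)
      (by
        intro A hA
        obtain ⟨i, -, rfl⟩ := Finset.mem_image.1 hA
        exact ⟨w i, Or.inr rfl⟩)
      (by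
        intro A hA B hB
        obtain ⟨i, -, rfl⟩ := Finset.mem_image.1 hA
        obtain ⟨j, -, rfl⟩ := Finset.mem_image.1 hB
        by_cases hij : i = j
        · subst hij
          obtain ⟨k, hk⟩ := hother i
          obtain ⟨-, -, -, ⟨z, hz, -⟩⟩ := hcross i k hk
          exact ⟨z, hz, hz⟩
        · obtain ⟨-, -, -, ⟨z, hz, hz'⟩⟩ := hcross i j hij
          exact ⟨z, hz, hz'⟩)
    exact ⟨z, fun i => hz _ (Finset.mem_image_of_mem _ (Finset.mem_univ i))⟩
  -- a closest pair
  obtain ⟨x, y, hx, hy, hmin⟩ : ∃ x y, (∀ i, x ∈ D.side (w i)) ∧ (∀ i, y ∉ D.side (w i)) ∧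
      ∀ x' y', (∀ i, x' ∈ D.side (w i)) → (∀ i, y' ∉ D.side (w i)) →
        X.dist x y ≤ X.dist x' y' := by
    have hex : ∃ n, ∃ x y, (∀ i, x ∈ D.side (w i)) ∧ (∀ i, y ∉ D.side (w i)) ∧
        X.dist x y = n := ⟨_, xA, yB, hxA, hyB, rfl⟩
    obtain ⟨x, y, hx, hy, h3⟩ := Nat.find_spec hex
    refine ⟨x, y, hx, hy, fun x' y' hx' hy' => ?_⟩
    rw [h3]
    exact Nat.find_min' hex ⟨x', y', hx', hy', rfl⟩
  have key : ∀ i, ∃ a, X.Adj x a ∧ D.wall x a = w i := by
    intro i
    have hsep : D.Sep (w i) x y := fun h => hy i (h.1 (hx i))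
    obtain ⟨a, hxa, ha⟩ := h1 X hX D (w i) x y hsep
    have h3 := ((h2 X hX D).1 x a y hxa).2 (ha y hsep)
    have h4 : ¬ ∀ j, a ∈ D.side (w j) := by
      intro h5
      have := hmin a y h5 hy
      omega
    push Not at h4
    obtain ⟨j, hj⟩ := h4
    have h5 : D.Sep (w j) x a := fun h => hj (h.1 (hx j))
    have h6 : w j = D.wall x a := (D.Sep_step hxa).1 h5
    by_cases hij : i = j
    · subst hij
      exact ⟨a, hxa, h6.symm⟩
    · exfalso
      obtain ⟨-, -, ⟨z, hz1, hz2⟩, -⟩ := (D.Cross_iff x).1 (hcross i j hij)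
      have h7 := ha z hz1
      rw [← h6] at h7
      exact hz2 h7
  choose a ha1 ha2 using key
  have hinj : Function.Injective a := by
    intro i j hij
    by_contra hne
    have h3 : w i = w j := by rw [← ha2 i, ← ha2 j, hij]
    have h4 := hcross i j hne
    rw [h3] at h4
    exact WA4.not_cross_self D _ h4
  have h3 : Finset.univ.image a ∈ link X x := by
    rw [mem_link]
    refine ⟨?_, ?_⟩
    · intro b hb
      obtain ⟨i, -, rfl⟩ := Finset.mem_image.1 hb
      exact (mem_nbr hf).2 (ha1 i)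
    · intro b hb c hc hbc
      obtain ⟨i, -, rfl⟩ := Finset.mem_image.1 hb
      obtain ⟨j, -, rfl⟩ := Finset.mem_image.1 hc
      have hij : i ≠ j := fun h => hbc (by rw [h])
      refine ((hs3 X hX D x (a i) (a j) (ha1 i) (ha1 j) hbc).2.1).2 ?_
      rw [ha2 i, ha2 j]
      exact hcross i j hij
  have h4 := hd x _ h3
  rw [Finset.card_image_of_injective _ hinj, Finset.card_univ, Fintype.card_fin] at h4
  omega

end WADP

end MP8a95ee.Npc
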