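import Pool.Agent.Work.MP_8a95ee_gt.Un.I_ALT
import Pool.Agent.Work.MP_8a95ee_gt.Un.I_CLO
import Pool.Agent.Work.MP_8a95ee_gt.Un.I_DBD
import Pool.Agent.Work.MP_8a95ee_gt.Un.I_DGJ
import Pool.Agent.Work.MP_8a95ee_gt.Un.I_DIM
import Pool.Agent.Work.MP_8a95ee_gt.Un.I_DMain
import Pool.Agent.Work.MP_8a95ee_gt.Un.I_FLO
import Pool.Agent.Work.MP_8a95ee_gt.Un.I_GEN
import Pool.Agent.Work.MP_8a95ee_gt.Un.I_NUB
import Pool.Agent.Work.MP_8a95ee_gt.Un.I_PSB
import Pool.Agent.Work.MP_8a95ee_gt.Un.I_THB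
import Pool.Agent.Work.MP_8a95ee_gt.Un.I_WAD

/-!
# The inequality with a constant depending only on the dimension: all items
-/

set_option autoImplicit false

namespace MP8a95ee.Npc

theorem allDIM : S_DIM := DIMP.prf

theorem allWAD : S_WAD := WADP.prf

theorem allDBD : S_DBD := DBDP.prf allWAD

theorem allNUB : S_NUB := NUBP.prf

theorem allPSB : S_PSB := PSBP.prf

theorem allALT : S_ALT := ALTP.prf

theorem allTHB : S_THB := THBP.prf

theorem allGEN : S_GEN := GENP.prf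

theorem allCLO : S_CLO := CLOP.prf

theorem allDGJ : S_DGJ := DGJP.prf allGEN allCLO

theorem allFLO : S_FLO := FLOP.prf allDIM allNUB allPSB allALT allTHB allDGJ

theorem allDMain : S_DMain := DMainP.prf allDIM allDBD allFLO

end MP8a95ee.Npc
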