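import Pool.Agent.Work.MP_8a95ee_gt.Un.Stmts

/-!
# Item ALT: the chain of a tuple has l1-norm at most one
-/

set_option autoImplicit false

namespace MP8a95ee.Npc

open Classical

namespace ALTP

lemma abs_sg (a : ℕ) (t : Finset ℕ) : |RA.sg a t| = 1 := by
  unfold RA.sg
  rw [abs_pow, abs_neg, abs_one, one_pow]

lemma abs_altJ : ∀ (k : ℕ) (t : Fin k → ℕ × Bool) (σ τ : Finset ℕ), |altJ k t σ τ| ≤ 1
  | 0, t, σ, τ => by
    unfold altJ
    split_ifs
    · simp
    · simp
  | k + 1, t, σ, τ => by
    unfold altJ wJ
    split_ifs
    · unfold wM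
      split_ifs
      · rw [abs_mul, abs_mul, abs_sg, abs_pow, abs_neg, abs_one, one_pow, one_mul, one_mul]
        exact abs_altJ k _ _ _
      · simp
    · unfold wP
      split_ifs
      · rw [abs_mul, abs_sg, one_mul]
        exact abs_altJ k _ _ _
      · simp

/-- the image of the entries of a given type -/
def im {k : ℕ} (t : Fin k → ℕ × Bool) (b : Bool) : Finset ℕ :=
  (Finset.univ.filter fun i => (t i).2 = b).image fun i => (t i).1

lemma card_im {k : ℕ} (t : Fin k → ℕ × Bool) : (im t false).card + (im t true).card ≤ k := by
  have h1 : (im t false).card ≤ (Finset.univ.filter fun i => (t i).2 = false).card :=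
    Finset.card_image_le
  have h2 : (im t true).card ≤ (Finset.univ.filter fun i => (t i).2 = true).card :=
    Finset.card_image_le
  have h3 : (Finset.univ.filter fun i => (t i).2 = false).card +
      (Finset.univ.filter fun i => (t i).2 = true).card = k := by
    have h := Finset.card_filter_add_card_filter_not
      (s := (Finset.univ : Finset (Fin k))) (fun i => (t i).2 = false)
    have e : (Finset.univ.filter fun i => ¬ (t i).2 = false) =
        Finset.univ.filter fun i => (t i).2 = true := by
      apply Finset.filter_congr
      intro i _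
      simp
    rw [e] at h
    rw [h]
    simp
  omega

lemma supp {k : ℕ} (t : Fin k → ℕ × Bool) (σ τ : Finset ℕ) (h : altJ k t σ τ ≠ 0) :
    σ = im t false ∧ τ = im t true := by
  obtain ⟨h1, h2, h3⟩ := (allJ3 ∅ k).2 t σ τ h
  have h2' : σ ⊆ im t false := h2
  have h3' : τ ⊆ im t true := h3
  have h4 := Finset.card_le_card h2'
  have h5 := Finset.card_le_card h3'
  have h6 := card_im t
  exact ⟨Finset.eq_of_subset_of_card_le h2' (by omega),
    Finset.eq_of_subset_of_card_le h3' (by omega)⟩

theorem prf : S_ALT := by
  intro V φ hφ k t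
  have key : ∀ σ τ, altJ k t σ τ * φ σ τ = if σ = im t false then
      (if τ = im t true then altJ k t (im t false) (im t true) * φ (im t false) (im t true)
        else 0) else 0 := by
    intro σ τ
    by_cases h : altJ k t σ τ = 0
    · split_ifs with h1 h2
      · subst h1
        subst h2
        rfl
      · rw [h, zero_mul]
      · rw [h, zero_mul]
    · obtain ⟨h1, h2⟩ := supp t σ τ h
      rw [if_pos h1, if_pos h2, ← h1, ← h2]
  have e : jf V φ (altJ k t) = if im t false ∈ V.powerset then
      (if im t true ∈ V.powerset then
        altJ k t (im t false) (im t true) * φ (im t false) (im t true) else 0) else 0 := by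
    change ∑ σ ∈ V.powerset, ∑ τ ∈ V.powerset, altJ k t σ τ * φ σ τ = _
    rw [Finset.sum_congr rfl fun σ _ => Finset.sum_congr rfl fun τ _ => key σ τ]
    have e1 : ∀ σ : Finset ℕ, ∑ τ ∈ V.powerset, (if σ = im t false then
        (if τ = im t true then altJ k t (im t false) (im t true) * φ (im t false) (im t true)
          else 0) else 0) = if σ = im t false then (if im t true ∈ V.powerset then
        altJ k t (im t false) (im t true) * φ (im t false) (im t true) else 0) else 0 := by
      intro σ
      split_ifs with h1 h2
      · rw [Finset.sum_ite_eq', if_pos h2]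
      · rw [Finset.sum_ite_eq', if_neg h2]
      · exact Finset.sum_const_zero
    rw [Finset.sum_congr rfl fun σ _ => e1 σ, Finset.sum_ite_eq']
  rw [e]
  split_ifs
  · rw [abs_mul]
    have h1 := abs_altJ k t (im t false) (im t true)
    have h2 := hφ (im t false) (im t true)
    calc _ ≤ (1 : ℝ) * 1 := mul_le_mul h1 h2 (abs_nonneg _) zero_le_one
      _ = 1 := one_mul 1
  · simp
  · simp

end ALTP

end MP8a95ee.Npc
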