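import Pool.Agent.Work.MP_8a95ee_gt.Un.Stmts

/-!
# Item THB: the random vertex map is bounded (helper32)
-/

set_option autoImplicit false

namespace MP8a95ee.Npc.THBP

open Classical

/-- sums over the subsets of `V`, split along a subset `C` -/
lemma sum_split (V C : Finset ℕ) (hC : C ⊆ V) (g : Finset ℕ → ℝ) :
    ∑ A ∈ V.powerset, g A = ∑ A ∈ (V \ C).powerset, ∑ B ∈ C.powerset, g (A ∪ B) := by
  rw [← Finset.sum_product']
  refine Finset.sum_bij' (fun A _ => (A \ C, A ∩ C)) (fun p _ => p.1 ∪ p.2) ?_ ?_ ?_ ?_ ?_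
  · intro A hA
    rw [Finset.mem_powerset] at hA
    rw [Finset.mem_product, Finset.mem_powerset, Finset.mem_powerset]
    exact ⟨Finset.sdiff_subset_sdiff hA (Finset.Subset.refl C), Finset.inter_subset_right⟩
  · rintro ⟨A, B⟩ h
    rw [Finset.mem_product, Finset.mem_powerset, Finset.mem_powerset] at h
    rw [Finset.mem_powerset]
    exact Finset.union_subset (h.1.trans Finset.sdiff_subset) (h.2.trans hC)
  · intro A _
    exact Finset.sdiff_union_inter A C
  · rintro ⟨A, B⟩ h
    rw [Finset.mem_product, Finset.mem_powerset, Finset.mem_powerset] at h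
    obtain ⟨h1, h2⟩ := h
    dsimp only at h1 h2 ⊢
    refine Prod.ext ?_ ?_
    · ext x
      simp only [Finset.mem_sdiff, Finset.mem_union]
      constructor
      · rintro ⟨h | h, h'⟩
        · exact h
        · exact absurd (h2 h) h'
      · intro h
        exact ⟨Or.inl h, (Finset.mem_sdiff.mp (h1 h)).2⟩
    · ext x
      simp only [Finset.mem_inter, Finset.mem_union]
      constructor
      · rintro ⟨h | h, h'⟩
        · exact absurd h' (Finset.mem_sdiff.mp (h1 h)).2
        · exact h
      · intro h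
        exact ⟨Or.inr h, h2 h⟩
  · intro A _
    dsimp only
    rw [Finset.sdiff_union_inter]

/-- the total mass of a product of densities on disjoint sets -/
lemma mass (h : Finset ℕ → Finset ℕ → ℝ) (S : Finset (Finset ℕ)) : ∀ (V : Finset ℕ),
    (∀ C ∈ S, C ⊆ V) → (∀ C ∈ S, ∀ C' ∈ S, C ≠ C' → Disjoint C C') →
    ∑ A ∈ V.powerset, ∏ C ∈ S, (2 ^ C.card * h C (A ∩ C)) =
      2 ^ V.card * ∏ C ∈ S, ∑ B ∈ C.powerset, h C B := by
  induction S using Finset.induction_on with
  | empty =>
    intro V _ _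
    simp
  | insert C0 S hC0 ih =>
    intro V hV hd
    have hC0V : C0 ⊆ V := hV C0 (Finset.mem_insert_self C0 S)
    have hdis : ∀ C ∈ S, Disjoint C C0 := fun C hC =>
      hd C (Finset.mem_insert_of_mem hC) C0 (Finset.mem_insert_self C0 S)
        (fun e => hC0 (e ▸ hC))
    rw [sum_split V C0 hC0V]
    have e1 : ∀ A ∈ (V \ C0).powerset, ∑ B ∈ C0.powerset,
        ∏ C ∈ insert C0 S, (2 ^ C.card * h C ((A ∪ B) ∩ C)) =
        (2 ^ C0.card * ∑ B ∈ C0.powerset, h C0 B) *
          ∏ C ∈ S, (2 ^ C.card * h C (A ∩ C)) := by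
      intro A hA
      rw [Finset.mem_powerset] at hA
      rw [Finset.mul_sum, Finset.sum_mul]
      refine Finset.sum_congr rfl fun B hB => ?_
      rw [Finset.mem_powerset] at hB
      rw [Finset.prod_insert hC0]
      have e2 : (A ∪ B) ∩ C0 = B := by
        ext x
        simp only [Finset.mem_inter, Finset.mem_union]
        constructor
        · rintro ⟨h | h, h'⟩
          · exact absurd h' (Finset.mem_sdiff.mp (hA h)).2
          · exact h
        · intro h
          exact ⟨Or.inr h, hB h⟩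
      rw [e2]
      congr 1
      refine Finset.prod_congr rfl fun C hC => ?_
      have e3 : (A ∪ B) ∩ C = A ∩ C := by
        ext x
        simp only [Finset.mem_inter, Finset.mem_union]
        constructor
        · rintro ⟨h | h, h'⟩
          · exact ⟨h, h'⟩
          · exact absurd (hB h) (Finset.disjoint_left.mp (hdis C hC) h')
        · rintro ⟨h, h'⟩
          exact ⟨Or.inl h, h'⟩
      rw [e3]
    rw [Finset.sum_congr rfl e1, ← Finset.mul_sum, ih (V \ C0) ?_ ?_, Finset.prod_insert hC0]
    · have e4 : V.card = C0.card + (V \ C0).card := by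
        rw [add_comm]
        exact (Finset.card_sdiff_add_card_eq_card hC0V).symm
      rw [e4, pow_add]
      ring
    · intro C hC
      exact Finset.subset_sdiff.mpr ⟨hV C (Finset.mem_insert_of_mem hC), hdis C hC⟩
    · intro C hC C' hC' hne
      exact hd C (Finset.mem_insert_of_mem hC) C' (Finset.mem_insert_of_mem hC') hne

theorem prf : S_THB := by
  intro d
  refine ⟨(2 ^ (2 * d) * 4 ^ (2 * d + 1)) ^ d, by positivity, ?_⟩
  intro L hL hd ν hν φ hφ k hk s hs
  set V := verts L with hVdef
  set S := (Finset.univ.image s).filter (fun C => 1 < C.card) with hS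
  have hScls : ∀ C ∈ S, Cls L C ∧ 1 < C.card ∧ ∃ i, s i = C := by
    intro C hC
    rw [hS, Finset.mem_filter, Finset.mem_image] at hC
    obtain ⟨⟨i, _, hi⟩, hc⟩ := hC
    exact ⟨hi ▸ hs.1 i, hc, i, hi⟩
  have hSV : ∀ C ∈ S, C ⊆ V := by
    intro C hC
    obtain ⟨⟨_, _, P, hP, Q, hQ, e⟩, _, _⟩ := hScls C hC
    rw [e]
    refine Finset.union_subset ?_ ?_
    · intro x hx
      exact Finset.mem_biUnion.mpr ⟨P, hP, hx⟩
    · intro x hx
      exact Finset.mem_biUnion.mpr ⟨Q, hQ, hx⟩
  have hScard : ∀ C ∈ S, C.card ≤ 2 * d := by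
    intro C hC
    obtain ⟨⟨_, _, P, hP, Q, hQ, e⟩, _, _⟩ := hScls C hC
    rw [e]
    have h1 := Finset.card_union_le P Q
    have h2 := hd P hP
    have h3 := hd Q hQ
    omega
  have hSd : ∀ C ∈ S, ∀ C' ∈ S, C ≠ C' → Disjoint C C' := by
    intro C hC C' hC' hne
    obtain ⟨_, hc, i, hi⟩ := hScls C hC
    obtain ⟨_, hc', j, hj⟩ := hScls C' hC'
    have h := hs.2 i j
    rw [hi, hj] at h
    obtain h | h | ⟨u, _, h⟩ | ⟨u, _, h⟩ := h
    · exact absurd h hne
    · rw [Finset.disjoint_left]
      intro x hx hx'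
      exact (h x hx x hx').1 rfl
    · rw [h, Finset.card_singleton] at hc
      omega
    · rw [h, Finset.card_singleton] at hc'
      omega
  have hSk : S.card ≤ d := by
    have h1 : S.card ≤ (Finset.univ.image s).card := Finset.card_filter_le _ _
    have h2 : (Finset.univ.image s).card ≤ (Finset.univ : Finset (Fin k)).card :=
      Finset.card_image_le
    rw [Finset.card_univ, Fintype.card_fin] at h2
    omega
  have habs : ∀ A, |dens ν V s A| =
      (1 / 2) ^ V.card * ∏ C ∈ S, (2 ^ C.card * |ν C (A ∩ C)|) := by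
    intro A
    unfold dens
    rw [abs_mul, Finset.abs_prod, abs_of_nonneg (by positivity : (0 : ℝ) ≤ (1 / 2) ^ V.card)]
    congr 1
    refine Finset.prod_congr rfl fun C _ => ?_
    rw [abs_mul, abs_of_nonneg (by positivity : (0 : ℝ) ≤ 2 ^ C.card)]
  calc |φ (Th L ν s)|
      = |∑ A ∈ V.powerset, dens ν V s A * φ (altJ k fun i => ph L A (s i))| := by
        unfold Th
        rw [map_sum]
        congr 1
        refine Finset.sum_congr rfl fun A _ => ?_
        rw [map_smul, smul_eq_mul]
    _ ≤ ∑ A ∈ V.powerset, |dens ν V s A| := by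
        refine (Finset.abs_sum_le_sum_abs _ _).trans ?_
        refine Finset.sum_le_sum fun A _ => ?_
        rw [abs_mul]
        calc |dens ν V s A| * |φ (altJ k fun i => ph L A (s i))|
            ≤ |dens ν V s A| * 1 := mul_le_mul_of_nonneg_left (hφ k _) (abs_nonneg _)
          _ = |dens ν V s A| := mul_one _
    _ = (1 / 2) ^ V.card * ∑ A ∈ V.powerset, ∏ C ∈ S, (2 ^ C.card * |ν C (A ∩ C)|) := by
        rw [Finset.mul_sum]
        exact Finset.sum_congr rfl fun A _ => habs A
    _ = ∏ C ∈ S, ∑ B ∈ C.powerset, |ν C B| := by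
        rw [mass (fun C B => |ν C B|) S V hSV hSd, ← mul_assoc, ← mul_pow]
        norm_num
    _ ≤ ∏ C ∈ S, (2 ^ (2 * d) * 4 ^ (2 * d + 1) : ℝ) := by
        refine Finset.prod_le_prod (fun C _ => Finset.sum_nonneg fun B _ => abs_nonneg _) ?_
        intro C hC
        obtain ⟨hcls, hc, _⟩ := hScls C hC
        calc ∑ B ∈ C.powerset, |ν C B| ≤ ∑ _B ∈ C.powerset, (4 : ℝ) ^ (C.card + 1) :=
              Finset.sum_le_sum fun B _ => (hν C hcls hc).2 B
          _ = 2 ^ C.card * 4 ^ (C.card + 1) := by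
              rw [Finset.sum_const, Finset.card_powerset, nsmul_eq_mul]
              push_cast
              rfl
          _ ≤ 2 ^ (2 * d) * 4 ^ (2 * d + 1) := by
              have h := hScard C hC
              exact mul_le_mul (pow_le_pow_right₀ (by norm_num) h)
                (pow_le_pow_right₀ (by norm_num) (by omega)) (by positivity) (by positivity)
    _ = (2 ^ (2 * d) * 4 ^ (2 * d + 1) : ℝ) ^ S.card := by
        rw [Finset.prod_const]
    _ ≤ (2 ^ (2 * d) * 4 ^ (2 * d + 1)) ^ d := by
        refine pow_le_pow_right₀ ?_ hSk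
        have h1 : (1 : ℝ) ≤ 2 ^ (2 * d) := one_le_pow₀ (by norm_num)
        have h2 : (1 : ℝ) ≤ 4 ^ (2 * d + 1) := one_le_pow₀ (by norm_num)
        nlinarith

end MP8a95ee.Npc.THBP
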